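import Mathlib

set_option autoImplicit false

/-!
# Greatest common divisors of sets of polynomials
-/

namespace Pool.Agent.Q299.IR

open MvPolynomial

/-- A polynomial divisor of full degree is an associate. -/
theorem assoc_of_dvd {σ : Type} {A B : MvPolynomial σ ℂ} (hB : B ≠ 0) (h : A ∣ B)
    (hd : B.totalDegree ≤ A.totalDegree) : Associated A B := by
  obtain ⟨C', hC⟩ := h
  have hA0 : A ≠ 0 := by
    rintro rfl
    exact hB (by rw [hC, zero_mul])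
  have hC0 : C' ≠ 0 := by
    rintro rfl
    exact hB (by rw [hC, mul_zero])
  rw [hC, totalDegree_mul_of_isDomain hA0 hC0] at hd
  have h0 : C'.totalDegree = 0 := by omega
  have h1 := (totalDegree_eq_zero_iff_eq_C (p := C')).1 h0
  have h2 : coeff 0 C' ≠ 0 := by
    intro h2
    rw [h2, map_zero] at h1
    exact hC0 h1
  refine ⟨Units.map (C : ℂ →+* MvPolynomial σ ℂ).toMonoidHom (Units.mk0 _ h2), ?_⟩
  rw [hC]
  congr 1
  exact h1.symm

/-- Greatest common divisors of arbitrary sets. -/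
theorem exists_gcd (S : Set (MvPolynomial (Fin 3) ℂ)) {F0 : MvPolynomial (Fin 3) ℂ} (hF0 : F0 ∈ S)
    (h0 : F0 ≠ 0) : ∃ H : MvPolynomial (Fin 3) ℂ, H ≠ 0 ∧
      ∀ G : MvPolynomial (Fin 3) ℂ, G ∣ H ↔ ∀ F ∈ S, G ∣ F := by
  classical
  let _ : GCDMonoid (MvPolynomial (Fin 3) ℂ) :=
    UniqueFactorizationMonoid.toGCDMonoid _
  -- common divisors have bounded degree
  have hb : ∀ G : MvPolynomial (Fin 3) ℂ, (∀ F ∈ S, G ∣ F) → G.totalDegree ≤ F0.totalDegree := by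
    intro G hG
    obtain ⟨C', hC⟩ := hG F0 hF0
    have hG0 : G ≠ 0 := by
      rintro rfl
      exact h0 (by rw [hC, zero_mul])
    have hC0 : C' ≠ 0 := by
      rintro rfl
      exact h0 (by rw [hC, mul_zero])
    rw [hC, totalDegree_mul_of_isDomain hG0 hC0]
    omega
  obtain ⟨n, hn, hmax⟩ : ∃ n, (∃ G : MvPolynomial (Fin 3) ℂ, (∀ F ∈ S, G ∣ F) ∧
      G.totalDegree = n) ∧ ∀ m, (∃ G : MvPolynomial (Fin 3) ℂ, (∀ F ∈ S, G ∣ F) ∧
      G.totalDegree = m) → m ≤ n := by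
    have hne : ∃ n, ∃ G : MvPolynomial (Fin 3) ℂ, (∀ F ∈ S, G ∣ F) ∧ G.totalDegree = n :=
      ⟨0, 1, fun F _ => one_dvd _, by simp⟩
    have hbd : ∀ n, (∃ G : MvPolynomial (Fin 3) ℂ, (∀ F ∈ S, G ∣ F) ∧ G.totalDegree = n) →
        n ≤ F0.totalDegree := by
      rintro n ⟨G, hG, rfl⟩
      exact hb G hG
    exact ⟨Nat.findGreatest _ F0.totalDegree,
      Nat.findGreatest_spec (P := fun n => ∃ G : MvPolynomial (Fin 3) ℂ, (∀ F ∈ S, G ∣ F) ∧
        G.totalDegree = n) (Nat.zero_le _) ⟨1, fun F _ => one_dvd _, by simp⟩,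
      fun m hm => Nat.le_findGreatest (hbd m hm) hm⟩
  obtain ⟨H, hH, hHn⟩ := hn
  have hH0 : H ≠ 0 := by
    rintro rfl
    exact h0 (zero_dvd_iff.1 (hH F0 hF0))
  refine ⟨H, hH0, fun G => ⟨fun h F hF => h.trans (hH F hF), fun hG => ?_⟩⟩
  have hl : ∀ F ∈ S, lcm G H ∣ F := fun F hF => lcm_dvd (hG F hF) (hH F hF)
  have hl0 : lcm G H ≠ 0 := by
    intro h
    have := hl F0 hF0
    rw [h] at this
    exact h0 (zero_dvd_iff.1 this)
  have h1 : (lcm G H).totalDegree ≤ H.totalDegree := by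
    rw [hHn]
    exact hmax _ ⟨_, hl, rfl⟩
  have h2 := assoc_of_dvd hl0 (dvd_lcm_right G H) h1
  exact (dvd_lcm_left G H).trans h2.symm.dvd

end Pool.Agent.Q299.IR
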