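import Pool.Agent.TH167.SH.Base
import Pool.Agent.H977R3.CM.Aut
import Pool.Agent.Q299.IR.Gcd

set_option autoImplicit false

/-!
# Automorphisms of the field of the complex numbers which permute the points

The first two theorems are copied from the starting file `Pool.Agent.Y939.XN.Perm`.
-/

namespace Pool.Agent.Q299.IR

open MvPolynomial Pool.Agent.W609 Pool.Agent.W609.CR Pool.Agent.TH167 Pool.Agent.TH167.SH

/-- A permutation of algebraically independent numbers is induced by an automorphism. -/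
theorem exists_aut_perm {ι : Type} {x : ι → ℂ} (hx : AlgebraicIndependent ℚ x)
    (σ : Equiv.Perm ι) : ∃ τ : ℂ ≃+* ℂ, ∀ i, τ (x i) = x (σ i) := by
  have hinj : Function.Injective (aeval x : MvPolynomial ι ℚ →ₐ[ℚ] ℂ) := hx
  obtain ⟨j, hj⟩ : ∃ j : FractionRing (MvPolynomial ι ℚ) →+* ℂ,
      j = IsFractionRing.lift (A := MvPolynomial ι ℚ) (g := (aeval x : MvPolynomial ι ℚ →ₐ[ℚ] ℂ).toRingHom)
        hinj := ⟨_, rfl⟩
  obtain ⟨g, hg⟩ : ∃ g : FractionRing (MvPolynomial ι ℚ) ≃+* FractionRing (MvPolynomial ι ℚ),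
      g = IsFractionRing.ringEquivOfRingEquiv (renameEquiv ℚ σ).toRingEquiv := ⟨_, rfl⟩
  obtain ⟨τ, hτ⟩ := Pool.Agent.H977R3.CM.exists_aut j g
  refine ⟨τ, fun i => ?_⟩
  have h1 : ∀ f : MvPolynomial ι ℚ, j (algebraMap _ _ f) = aeval x f := fun f => by
    rw [hj, IsFractionRing.lift_algebraMap]
    rfl
  have h2 := hτ (algebraMap (MvPolynomial ι ℚ) _ (X i))
  rw [h1, aeval_X, hg, IsFractionRing.ringEquivOfRingEquiv_algebraMap] at h2
  rw [h2]
  have h3 : (renameEquiv ℚ σ).toRingEquiv (X i) = (X (σ i) : MvPolynomial ι ℚ) := by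
    simp
  rw [h3, h1, aeval_X]

/-- Orders of vanishing and automorphisms of the field. -/
theorem van_map (τ : ℂ ≃+* ℂ) (v : Fin 3 → ℂ) (m : ℕ) (f : MvPolynomial (Fin 3) ℂ) :
    Van (fun i => τ (v i)) m (mapEquiv (Fin 3) τ f) ↔ Van v m f := by
  unfold Van
  obtain ⟨φ, hφ⟩ : ∃ φ, φ = mapEquiv (Fin 3) τ := ⟨_, rfl⟩
  rw [← hφ]
  have h1 : RingHom.ker (eval fun i => τ (v i)) =
      Ideal.map (φ : MvPolynomial (Fin 3) ℂ →+* MvPolynomial (Fin 3) ℂ)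
        (RingHom.ker (eval v)) := by
    rw [Ideal.map_comap_of_equiv]
    ext g
    rw [Ideal.mem_comap, RingHom.mem_ker, RingHom.mem_ker]
    obtain ⟨h, rfl⟩ := φ.surjective g
    have h2 : eval (fun i => τ (v i)) (φ h) = τ (eval v h) := by
      rw [hφ]
      have e1 : (mapEquiv (Fin 3) τ) h = map (τ : ℂ →+* ℂ) h := rfl
      have e3 := eval₂_comp_left (τ : ℂ →+* ℂ) (RingHom.id ℂ) v h
      rw [eval₂_id, RingHom.comp_id] at e3
      rw [e1, eval_map]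
      exact e3.symm
    rw [h2]
    simp
  rw [h1, ← Ideal.map_pow]
  constructor
  · intro h
    obtain ⟨g, hg, hgf⟩ := (Ideal.mem_map_of_equiv φ _).1 h
    rwa [← φ.injective hgf]
  · exact fun h => Ideal.mem_map_of_mem _ h

/-- the action on forms -/
noncomputable def ph (τ : ℂ ≃+* ℂ) : MvPolynomial (Fin 3) ℂ ≃+* MvPolynomial (Fin 3) ℂ :=
  mapEquiv (Fin 3) τ

theorem ph_eq (τ : ℂ ≃+* ℂ) (f : MvPolynomial (Fin 3) ℂ) : ph τ f = map (τ : ℂ →+* ℂ) f := rfl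

theorem ph_symm_apply (τ : ℂ ≃+* ℂ) (f : MvPolynomial (Fin 3) ℂ) : ph τ (ph τ.symm f) = f := by
  rw [ph_eq, ph_eq, map_map]
  have : ((τ : ℂ →+* ℂ).comp (τ.symm : ℂ →+* ℂ)) = RingHom.id ℂ := by
    ext x
    simp
  rw [this, map_id]

theorem ph_trans (τ τ' : ℂ ≃+* ℂ) (f : MvPolynomial (Fin 3) ℂ) :
    ph (τ.trans τ') f = ph τ' (ph τ f) := by
  rw [ph_eq, ph_eq, ph_eq, map_map]
  rfl

theorem ph_hom (τ : ℂ ≃+* ℂ) {f : MvPolynomial (Fin 3) ℂ} {d : ℕ} (hf : f.IsHomogeneous d) :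
    (ph τ f).IsHomogeneous d := by
  rw [ph_eq]
  exact hf.map _

theorem ph_ne (τ : ℂ ≃+* ℂ) {f : MvPolynomial (Fin 3) ℂ} (hf : f ≠ 0) : ph τ f ≠ 0 := by
  intro h
  exact hf ((ph τ).injective (by rw [h, map_zero]))

theorem ph_irr (τ : ℂ ≃+* ℂ) {f : MvPolynomial (Fin 3) ℂ} (hf : Irreducible f) :
    Irreducible (ph τ f) := (MulEquiv.irreducible_iff (ph τ)).2 hf

theorem ph_dvd (τ : ℂ ≃+* ℂ) {f g : MvPolynomial (Fin 3) ℂ} (h : f ∣ g) : ph τ f ∣ ph τ g :=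
  map_dvd _ h

theorem ph_assoc (τ : ℂ ≃+* ℂ) {f g : MvPolynomial (Fin 3) ℂ} (h : Associated f g) :
    Associated (ph τ f) (ph τ g) := h.map (ph τ)

variable {n k : ℕ}

/-- the automorphism `τ` permutes the points `P` by `σ` and fixes the points `Q` -/
structure Acts (P : Fin n → Fin 2 → ℂ) (Q : Fin k → Fin 2 → ℂ) (τ : ℂ ≃+* ℂ)
    (σ : Equiv.Perm (Fin n)) : Prop where
  left : ∀ i b, τ (P i b) = P (σ i) b
  right : ∀ j b, τ (Q j b) = Q j b

theorem Acts.symm {P : Fin n → Fin 2 → ℂ} {Q : Fin k → Fin 2 → ℂ} {τ : ℂ ≃+* ℂ}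
    {σ : Equiv.Perm (Fin n)} (h : Acts P Q τ σ) : Acts P Q τ.symm σ.symm := by
  constructor
  · intro i b
    rw [RingEquiv.symm_apply_eq, h.left, σ.apply_symm_apply]
  · intro j b
    rw [RingEquiv.symm_apply_eq, h.right]

theorem Acts.trans {P : Fin n → Fin 2 → ℂ} {Q : Fin k → Fin 2 → ℂ} {τ τ' : ℂ ≃+* ℂ}
    {σ σ' : Equiv.Perm (Fin n)} (h : Acts P Q τ σ) (h' : Acts P Q τ' σ') :
    Acts P Q (τ.trans τ') (σ.trans σ') := by
  constructor
  · intro i b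
    simp only [RingEquiv.trans_apply, h.left, h'.left, Equiv.trans_apply]
  · intro j b
    simp only [RingEquiv.trans_apply, h.right, h'.right]

theorem Acts.van {P : Fin n → Fin 2 → ℂ} {Q : Fin k → Fin 2 → ℂ} {τ : ℂ ≃+* ℂ}
    {σ : Equiv.Perm (Fin n)} (h : Acts P Q τ σ) (i : Fin n) (m : ℕ) (f : MvPolynomial (Fin 3) ℂ) :
    Van (aff (P (σ i))) m (ph τ f) ↔ Van (aff (P i)) m f := by
  have h1 : aff (P (σ i)) = fun l => τ (aff (P i) l) := by
    funext l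
    fin_cases l
    · exact (h.left i 0).symm
    · exact (h.left i 1).symm
    · exact (map_one τ).symm
  rw [h1]
  exact van_map τ _ m f

theorem Acts.vanQ {P : Fin n → Fin 2 → ℂ} {Q : Fin k → Fin 2 → ℂ} {τ : ℂ ≃+* ℂ}
    {σ : Equiv.Perm (Fin n)} (h : Acts P Q τ σ) (j : Fin k) (m : ℕ) (f : MvPolynomial (Fin 3) ℂ) :
    Van (aff (Q j)) m (ph τ f) ↔ Van (aff (Q j)) m f := by
  have h1 : aff (Q j) = fun l => τ (aff (Q j) l) := by
    funext l
    fin_cases l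
    · exact (h.right j 0).symm
    · exact (h.right j 1).symm
    · exact (map_one τ).symm
  conv_lhs => rw [h1]
  exact van_map τ _ m f

theorem Acts.ord {P : Fin n → Fin 2 → ℂ} {Q : Fin k → Fin 2 → ℂ} {τ : ℂ ≃+* ℂ}
    {σ : Equiv.Perm (Fin n)} (h : Acts P Q τ σ) (i : Fin n) (m : ℕ) (f : MvPolynomial (Fin 3) ℂ) :
    Ord (aff (P (σ i))) m (ph τ f) ↔ Ord (aff (P i)) m f := by
  unfold CR.Ord
  rw [h.van, h.van]

/-- all permutations of the points `P` are induced by automorphisms which fix the points `Q` -/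
theorem exists_acts {P : Fin n → Fin 2 → ℂ} {Q : Fin k → Fin 2 → ℂ}
    (hPQ : AlgebraicIndependent ℚ (fun ij : Fin (n + k) × Fin 2 => Fin.append P Q ij.1 ij.2))
    (σ : Equiv.Perm (Fin n)) : ∃ τ : ℂ ≃+* ℂ, Acts P Q τ σ := by
  obtain ⟨τ, hτ⟩ := exists_aut_perm hPQ (Equiv.prodCongr
    (finSumFinEquiv.permCongr (Equiv.sumCongr σ (Equiv.refl (Fin k)))) (Equiv.refl (Fin 2)))
  refine ⟨τ, fun i b => ?_, fun j b => ?_⟩
  · have h := hτ (Fin.castAdd k i, b)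
    simpa using h
  · have h := hτ (Fin.natAdd n j, b)
    simpa using h

/-- the conjugates of a form by all these automorphisms are associated to it -/
def Inv (P : Fin n → Fin 2 → ℂ) (Q : Fin k → Fin 2 → ℂ) (F : MvPolynomial (Fin 3) ℂ) : Prop :=
  ∀ τ σ, Acts P Q τ σ → Associated (ph τ F) F

/-- the exact order at a point exists -/
theorem exists_ord {a : Fin 2 → ℂ} {f : MvPolynomial (Fin 3) ℂ} {e : ℕ} (hf0 : f ≠ 0)
    (hf : f.IsHomogeneous e) : ∃ m, Ord (aff a) m f := by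
  classical
  have h0 : ∃ m, ¬ Van (aff a) m f := ⟨e + 1, fun h => by
    have := van_le hf0 hf h
    omega⟩
  obtain ⟨m, hm1, hm2⟩ : ∃ m, ¬ Van (aff a) m f ∧ ∀ l < m, Van (aff a) l f := by
    refine ⟨Nat.find h0, Nat.find_spec h0, fun l hl => ?_⟩
    have := Nat.find_min h0 hl
    rwa [not_not] at this
  cases m with
  | zero => exact absurd (van_zero _ _) hm1
  | succ m => exact ⟨m, hm2 m (Nat.lt_succ_self m), hm1⟩

theorem van_assoc {v : Fin 3 → ℂ} {m : ℕ} {f g : MvPolynomial (Fin 3) ℂ} (h : Associated f g)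
    (hf : Van v m f) : Van v m g := by
  obtain ⟨u, rfl⟩ := h
  unfold Van at *
  exact Ideal.mul_mem_right _ _ hf

theorem ord_assoc {v : Fin 3 → ℂ} {m : ℕ} {f g : MvPolynomial (Fin 3) ℂ} (h : Associated f g)
    (hf : Ord v m f) : Ord v m g :=
  ⟨van_assoc h hf.1, fun h1 => hf.2 (van_assoc h.symm h1)⟩

/-- an invariant form has the same multiplicity at all points `P` -/
theorem Inv.uniform {P : Fin n → Fin 2 → ℂ} {Q : Fin k → Fin 2 → ℂ}
    (hPQ : AlgebraicIndependent ℚ (fun ij : Fin (n + k) × Fin 2 => Fin.append P Q ij.1 ij.2))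
    {F : MvPolynomial (Fin 3) ℂ} (hF : Inv P Q F) {e : ℕ} (hF0 : F ≠ 0) (hFe : F.IsHomogeneous e)
    (hn : 0 < n) : ∃ a, ∀ i, Ord (aff (P i)) a F := by
  obtain ⟨a, ha⟩ := exists_ord (a := P ⟨0, hn⟩) hF0 hFe
  refine ⟨a, fun i => ?_⟩
  obtain ⟨τ, hτ⟩ := exists_acts hPQ (Equiv.swap ⟨0, hn⟩ i)
  have h1 := (hτ.ord ⟨0, hn⟩ a F).2 ha
  rw [Equiv.swap_apply_left] at h1
  exact ord_assoc (hF τ _ hτ) h1

end Pool.Agent.Q299.IR
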