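import Pool.Agent.TH167.SH.Base
import Pool.Agent.TH167.SH.Gen

set_option autoImplicit false

/-!
# Very general simple points impose independent conditions
-/

namespace Pool.Agent.Q299.IR

open MvPolynomial Pool.Agent.W609 Pool.Agent.W609.CR Pool.Agent.TH167 Pool.Agent.TH167.SH

/-- a nonzero form does not vanish at some affine point -/
theorem exists_aff_ne {f : MvPolynomial (Fin 3) ℂ} {d : ℕ} (hf : f.IsHomogeneous d) (h0 : f ≠ 0) :
    ∃ R : Fin 2 → ℂ, eval (aff R) f ≠ 0 := by
  have h1 : f * X 2 ≠ 0 := mul_ne_zero h0 (X_ne_zero 2)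
  obtain ⟨v, hv⟩ : ∃ v : Fin 3 → ℂ, eval v (f * X 2) ≠ 0 := by
    by_contra hcon
    push Not at hcon
    exact h1 (MvPolynomial.funext fun v => by rw [hcon v, map_zero])
  rw [map_mul, eval_X] at hv
  have hv1 := left_ne_zero_of_mul hv
  have hv2 := right_ne_zero_of_mul hv
  refine ⟨fun b => if b = 0 then v 0 / v 2 else v 1 / v 2, ?_⟩
  intro h
  have h2 : (v 2) • aff (fun b : Fin 2 => if b = 0 then v 0 / v 2 else v 1 / v 2) = v := by
    funext l
    fin_cases l
    · simp [aff]
      field_simp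
    · simp [aff]
      field_simp
    · simp [aff]
  have h4 : eval ((v 2) • aff (fun b : Fin 2 => if b = 0 then v 0 / v 2 else v 1 / v 2)) f =
      v 2 ^ d * eval (aff (fun b : Fin 2 => if b = 0 then v 0 / v 2 else v 1 / v 2)) f := by
    rw [eval_eq, eval_eq, Finset.mul_sum]
    refine Finset.sum_congr rfl fun s hs => ?_
    have h5 : s.degree = d := by
      have := hf (mem_support_iff.1 hs)
      rw [← this]
      rw [Finsupp.degree_eq_weight_one]
      rfl
    have h6 : ∏ i ∈ s.support, ((v 2) • aff (fun b : Fin 2 => if b = 0 then v 0 / v 2 else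
        v 1 / v 2)) i ^ s i = v 2 ^ d * ∏ i ∈ s.support,
          (aff (fun b : Fin 2 => if b = 0 then v 0 / v 2 else v 1 / v 2)) i ^ s i := by
      rw [← h5]
      simp only [Pi.smul_apply, smul_eq_mul, mul_pow, Finset.prod_mul_distrib,
        Finset.prod_pow_eq_pow_sum]
      rfl
    rw [h6]
    ring
  rw [h2, h, mul_zero] at h4
  exact hv1 h4

variable {N : ℕ}

theorem mem_update {P : Fin N → Fin 2 → ℂ} {w : Fin N → ℕ} {j : Fin N} (hj : w j = 0) {d : ℕ}
    {f : MvPolynomial (Fin 3) ℂ} :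
    f ∈ VS (fun i => aff (P i)) (Function.update w j 1) d ↔
      f ∈ VS (fun i => aff (P i)) w d ∧ eval (aff (P j)) f = 0 := by
  rw [mem_VS, mem_VS]
  constructor
  · rintro ⟨h1, h2⟩
    refine ⟨⟨h1, fun i => ?_⟩, ?_⟩
    · by_cases hi : i = j
      · rw [hi, hj]
        exact van_zero _ _
      · have := h2 i
        rwa [Function.update_of_ne hi] at this
    · have := h2 j
      rwa [Function.update_self, van_one] at this
  · rintro ⟨⟨h1, h2⟩, h3⟩
    refine ⟨h1, fun i => ?_⟩
    by_cases hi : i = j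
    · rw [hi, Function.update_self, van_one]
      exact h3
    · rw [Function.update_of_ne hi]
      exact h2 i

/-- some form of the system does not vanish at the new point -/
theorem exists_ne_at {P : Fin N → Fin 2 → ℂ}
    (hP : AlgebraicIndependent ℚ (fun ij : Fin N × Fin 2 => P ij.1 ij.2))
    {w : Fin N → ℕ} {j : Fin N} (hj : w j = 0) {d : ℕ} {f0 : MvPolynomial (Fin 3) ℂ}
    (hf0 : f0 ∈ VS (fun i => aff (P i)) w d) (h0 : f0 ≠ 0) :
    ∃ f ∈ VS (fun i => aff (P i)) w d, eval (aff (P j)) f ≠ 0 := by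
  classical
  by_contra hcon
  push Not at hcon
  obtain ⟨g, F, hF, hF'⟩ := dim_gen w d
  obtain ⟨g', F', hF1, hF1'⟩ := dim_gen (Function.update w j 1) d
  have hgen : ∀ G : MvPolynomial (Fin N × Fin 2) ℚ, G ≠ 0 →
      MvPolynomial.aeval (fun ij : Fin N × Fin 2 => P ij.1 ij.2) G ≠ 0 := fun G hG h =>
    hG ((injective_iff_map_eq_zero _).1 hP G h)
  have heq : VS (fun i => aff (P i)) (Function.update w j 1) d = VS (fun i => aff (P i)) w d := by
    ext f
    rw [mem_update hj]
    exact ⟨fun h => h.1, fun h => ⟨h, hcon f h⟩⟩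
  have hgg : g' = g := by
    rw [← hF' ℂ P (hgen F hF), ← hF1' ℂ P (hgen F' hF1), heq]
  -- the polynomial conditions on the point `R`
  obtain ⟨ψ, hψ⟩ : ∃ ψ : MvPolynomial (Fin N × Fin 2) ℚ →ₐ[ℚ] MvPolynomial (Fin 2) ℂ,
      ψ = MvPolynomial.aeval (fun ij : Fin N × Fin 2 =>
        if ij.1 = j then (X ij.2 : MvPolynomial (Fin 2) ℂ) else C (P ij.1 ij.2)) := ⟨_, rfl⟩
  have hψe : ∀ (R : Fin 2 → ℂ) (G : MvPolynomial (Fin N × Fin 2) ℚ), eval R (ψ G) =
      MvPolynomial.aeval (fun ij : Fin N × Fin 2 => Function.update P j R ij.1 ij.2) G := by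
    intro R G
    have h1 : (((aeval R : MvPolynomial (Fin 2) ℂ →ₐ[ℂ] ℂ).restrictScalars ℚ).comp ψ) =
        MvPolynomial.aeval (fun ij : Fin N × Fin 2 => Function.update P j R ij.1 ij.2) := by
      apply MvPolynomial.algHom_ext
      rintro ⟨i, b⟩
      rw [hψ]
      by_cases hi : i = j
      · subst hi
        simp
      · simp [hi]
    have h2 := DFunLike.congr_fun h1 G
    rw [← h2]
    simp [MvPolynomial.aeval_eq_eval]
  have hupd : Function.update P j (P j) = P := Function.update_eq_self j P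
  have hψne : ∀ G : MvPolynomial (Fin N × Fin 2) ℚ, G ≠ 0 → ψ G ≠ 0 := by
    intro G hG h
    have h1 := hψe (P j) G
    rw [h, map_zero, hupd] at h1
    exact hgen G hG h1.symm
  rw [mem_VS] at hf0
  obtain ⟨θ, hθ⟩ : ∃ θ : MvPolynomial (Fin 3) ℂ →ₐ[ℂ] MvPolynomial (Fin 2) ℂ,
      θ = MvPolynomial.aeval ![X 0, X 1, 1] := ⟨_, rfl⟩
  have hθe : ∀ (R : Fin 2 → ℂ) (f : MvPolynomial (Fin 3) ℂ), eval R (θ f) = eval (aff R) f := by
    intro R f
    have h1 : ((aeval R : MvPolynomial (Fin 2) ℂ →ₐ[ℂ] ℂ).comp θ) = aeval (aff R) := by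
      apply MvPolynomial.algHom_ext
      intro l
      rw [hθ]
      fin_cases l <;> simp [aff]
    have h2 := DFunLike.congr_fun h1 f
    rw [AlgHom.comp_apply] at h2
    rw [MvPolynomial.aeval_eq_eval, MvPolynomial.aeval_eq_eval] at h2
    exact h2
  have hθne : θ f0 ≠ 0 := by
    intro h
    obtain ⟨R, hR⟩ := exists_aff_ne hf0.1 h0
    rw [← hθe, h, map_zero] at hR
    exact hR rfl
  have hprod : ψ F * ψ F' * θ f0 ≠ 0 :=
    mul_ne_zero (mul_ne_zero (hψne F hF) (hψne F' hF1)) hθne
  obtain ⟨R, hR⟩ : ∃ R : Fin 2 → ℂ, eval R (ψ F * ψ F' * θ f0) ≠ 0 := by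
    by_contra hcon'
    push Not at hcon'
    exact hprod (MvPolynomial.funext fun R => by rw [hcon' R, map_zero])
  rw [map_mul, map_mul, hψe, hψe, hθe] at hR
  have r1 := left_ne_zero_of_mul (left_ne_zero_of_mul hR)
  have r2 := right_ne_zero_of_mul (left_ne_zero_of_mul hR)
  have r3 := right_ne_zero_of_mul hR
  have d1 := hF' ℂ (Function.update P j R) r1
  have d2 := hF1' ℂ (Function.update P j R) r2
  have hle : VS (fun i => aff (Function.update P j R i)) (Function.update w j 1) d ≤
      VS (fun i => aff (Function.update P j R i)) w d := fun f hf => ((mem_update hj).1 hf).1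
  have hfin := vs_fin (fun i => aff (Function.update P j R i)) w d
  have heq2 : VS (fun i => aff (Function.update P j R i)) (Function.update w j 1) d =
      VS (fun i => aff (Function.update P j R i)) w d :=
    Submodule.eq_of_le_of_finrank_eq hle (by rw [d1, d2, hgg])
  have hf1 : f0 ∈ VS (fun i => aff (Function.update P j R i)) w d := by
    rw [mem_VS]
    refine ⟨hf0.1, fun i => ?_⟩
    by_cases hi : i = j
    · rw [hi, hj]
      exact van_zero _ _
    · rw [Function.update_of_ne hi]
      exact hf0.2 i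
  rw [← heq2, mem_update hj, Function.update_self] at hf1
  exact r3 hf1.2

/-- **One more very general simple point.** -/
theorem simple {P : Fin N → Fin 2 → ℂ}
    (hP : AlgebraicIndependent ℚ (fun ij : Fin N × Fin 2 => P ij.1 ij.2))
    {w : Fin N → ℕ} {j : Fin N} (hj : w j = 0) (d : ℕ) :
    Module.finrank ℂ ↥(VS (fun i => aff (P i)) (Function.update w j 1) d) =
      Module.finrank ℂ ↥(VS (fun i => aff (P i)) w d) - 1 := by
  classical
  have hfin := vs_fin (fun i => aff (P i)) w d
  have hle : VS (fun i => aff (P i)) (Function.update w j 1) d ≤ VS (fun i => aff (P i)) w d :=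
    fun f hf => ((mem_update hj).1 hf).1
  by_cases hbot : VS (fun i => aff (P i)) w d = ⊥
  · have h1 : VS (fun i => aff (P i)) (Function.update w j 1) d = ⊥ :=
      le_bot_iff.1 (hbot ▸ hle)
    rw [h1, hbot, finrank_bot]
  · obtain ⟨f0, hf0, h0⟩ := Submodule.exists_mem_ne_zero_of_ne_bot hbot
    obtain ⟨f, hf, hfj⟩ := exists_ne_at hP hj hf0 h0
    obtain ⟨ℓ, hℓ⟩ : ∃ ℓ : ↥(VS (fun i => aff (P i)) w d) →ₗ[ℂ] ℂ,
        ℓ = (aeval (aff (P j)) : MvPolynomial (Fin 3) ℂ →ₐ[ℂ] ℂ).toLinearMap.domRestrict _ :=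
      ⟨_, rfl⟩
    have hℓe : ∀ g, ℓ g = eval (aff (P j)) (g : MvPolynomial (Fin 3) ℂ) := by
      intro g
      rw [hℓ, LinearMap.domRestrict_apply, AlgHom.toLinearMap_apply, MvPolynomial.aeval_eq_eval]
    have hr : LinearMap.range ℓ = ⊤ := by
      rw [LinearMap.range_eq_top]
      intro c
      refine ⟨(c / eval (aff (P j)) f) • ⟨f, hf⟩, ?_⟩
      rw [map_smul, hℓe, smul_eq_mul]
      exact div_mul_cancel₀ _ hfj
    have h1 := LinearMap.finrank_range_add_finrank_ker ℓ
    rw [hr, finrank_top, Module.finrank_self] at h1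
    have h2 : VS (fun i => aff (P i)) (Function.update w j 1) d =
        Submodule.map (VS (fun i => aff (P i)) w d).subtype (LinearMap.ker ℓ) := by
      ext g
      rw [mem_update hj, Submodule.mem_map]
      constructor
      · rintro ⟨h3, h4⟩
        exact ⟨⟨g, h3⟩, by rw [LinearMap.mem_ker, hℓe]; exact h4, rfl⟩
      · rintro ⟨⟨g', h3⟩, h4, rfl⟩
        rw [LinearMap.mem_ker, hℓe] at h4
        exact ⟨h3, h4⟩
    have h3 : Module.finrank ℂ ↥(VS (fun i => aff (P i)) (Function.update w j 1) d) =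
        Module.finrank ℂ ↥(LinearMap.ker ℓ) := by
      rw [h2]
      exact (LinearEquiv.finrank_eq (Submodule.equivMapOfInjective _
        (Submodule.injective_subtype _) _)).symm
    omega

/-- **Several more very general simple points.** -/
theorem simple_set {P : Fin N → Fin 2 → ℂ}
    (hP : AlgebraicIndependent ℚ (fun ij : Fin N × Fin 2 => P ij.1 ij.2)) (S : Finset (Fin N))
    {w : Fin N → ℕ} (hS : ∀ j ∈ S, w j = 0) (d : ℕ) :
    Module.finrank ℂ ↥(VS (fun i => aff (P i)) (fun i => if i ∈ S then 1 else w i) d) =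
      Module.finrank ℂ ↥(VS (fun i => aff (P i)) w d) - S.card := by
  classical
  induction S using Finset.induction_on with
  | empty =>
    simp only [Finset.notMem_empty, if_false, Finset.card_empty, Nat.sub_zero]
    rfl
  | insert a S ha ih =>
    have h1 := ih fun j hj => hS j (Finset.mem_insert_of_mem hj)
    have h2 : (fun i => if i ∈ insert a S then 1 else w i) =
        Function.update (fun i => if i ∈ S then 1 else w i) a 1 := by
      funext i
      by_cases hi : i = a
      · rw [hi, Function.update_self, if_pos (Finset.mem_insert_self a S)]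
      · rw [Function.update_of_ne hi]
        simp [hi]
    rw [h2, simple hP (by simp [ha, hS a (Finset.mem_insert_self a S)]), h1,
      Finset.card_insert_of_notMem ha]
    omega

end Pool.Agent.Q299.IR
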