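import Pool.Agent.Q299.IR.Arith
import Pool.Agent.Q299.IR.Aut
import Pool.Agent.Q299.IR.Simple
import Pool.Agent.TH167.SH.Line

set_option autoImplicit false

/-!
# Uniform systems: no fixed part, irreducible members, conjugate components
-/

namespace Pool.Agent.Q299.IR

open MvPolynomial Pool.Agent.W609 Pool.Agent.W609.CR Pool.Agent.TH167 Pool.Agent.TH167.SH

variable {n k : ℕ} {P : Fin n → Fin 2 → ℂ} {Q : Fin k → Fin 2 → ℂ}

/-- the forms of the system `(d; w)` at the points `P` which vanish at the points `Q j`, `j ∈ S` -/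
def VQ (P : Fin n → Fin 2 → ℂ) (Q : Fin k → Fin 2 → ℂ) (w : Fin n → ℕ) (S : Finset (Fin k))
    (d : ℕ) : Submodule ℂ (MvPolynomial (Fin 3) ℂ) where
  carrier := {f | f ∈ VS (fun i => aff (P i)) w d ∧ ∀ j ∈ S, eval (aff (Q j)) f = 0}
  add_mem' := fun {f g} hf hg => ⟨Submodule.add_mem _ hf.1 hg.1, fun j hj => by
    rw [map_add, hf.2 j hj, hg.2 j hj, add_zero]⟩
  zero_mem' := ⟨Submodule.zero_mem _, fun j _ => map_zero _⟩
  smul_mem' := fun c f hf => ⟨Submodule.smul_mem _ c hf.1, fun j hj => by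
    rw [smul_eval, hf.2 j hj, mul_zero]⟩

theorem mem_VQ {w : Fin n → ℕ} {S : Finset (Fin k)} {d : ℕ} {f : MvPolynomial (Fin 3) ℂ} :
    f ∈ VQ P Q w S d ↔ f ∈ VS (fun i => aff (P i)) w d ∧ ∀ j ∈ S, eval (aff (Q j)) f = 0 :=
  Iff.rfl

theorem VQ_eq (w : Fin n → ℕ) (S : Finset (Fin k)) (d : ℕ) :
    VQ P Q w S d = VS (fun i => aff (Fin.append P Q i))
      (fun i => if i ∈ S.map (Fin.natAddEmb n) then 1 else Fin.append w (fun _ : Fin k => 0) i)
      d := by
  ext f
  rw [mem_VQ, mem_VS, mem_VS]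
  constructor
  · rintro ⟨⟨h1, h2⟩, h3⟩
    refine ⟨h1, fun i => ?_⟩
    refine Fin.addCases (fun i => ?_) (fun j => ?_) i
    · rw [if_neg ?_, Fin.append_left, Fin.append_left]
      · exact h2 i
      · intro h
        obtain ⟨j, -, hj⟩ := Finset.mem_map.1 h
        have := congrArg Fin.val hj
        simp at this
        omega
    · rw [Fin.append_right, Fin.append_right]
      by_cases hj : j ∈ S
      · rw [if_pos (show Fin.natAdd n j ∈ S.map (Fin.natAddEmb n) from
          Finset.mem_map.2 ⟨j, hj, rfl⟩), van_one]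
        exact h3 j hj
      · rw [if_neg ?_]
        · exact van_zero _ _
        · intro h
          obtain ⟨j', hj', h'⟩ := Finset.mem_map.1 h
          have : j' = j := by
            have := congrArg Fin.val h'
            simp at this
            exact Fin.ext this
          exact hj (this ▸ hj')
  · rintro ⟨h1, h2⟩
    refine ⟨⟨h1, fun i => ?_⟩, fun j hj => ?_⟩
    · have h := h2 (Fin.castAdd k i)
      rw [if_neg ?_, Fin.append_left, Fin.append_left] at h
      · exact h
      · intro h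
        obtain ⟨j, -, hj⟩ := Finset.mem_map.1 h
        have := congrArg Fin.val hj
        simp at this
        omega
    · have h := h2 (Fin.natAdd n j)
      rw [if_pos (show Fin.natAdd n j ∈ S.map (Fin.natAddEmb n) from
        Finset.mem_map.2 ⟨j, hj, rfl⟩), Fin.append_right, van_one] at h
      exact h

theorem VS_append (w : Fin n → ℕ) (d : ℕ) :
    VS (fun i => aff (Fin.append P Q i)) (Fin.append w (fun _ : Fin k => 0)) d =
      VS (fun i => aff (P i)) w d := by
  ext f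
  rw [mem_VS, mem_VS]
  constructor
  · rintro ⟨h1, h2⟩
    refine ⟨h1, fun i => ?_⟩
    have h := h2 (Fin.castAdd k i)
    rwa [Fin.append_left, Fin.append_left] at h
  · rintro ⟨h1, h2⟩
    refine ⟨h1, fun i => ?_⟩
    refine Fin.addCases (fun i => ?_) (fun j => ?_) i
    · rw [Fin.append_left, Fin.append_left]
      exact h2 i
    · rw [Fin.append_right, Fin.append_right]
      exact van_zero _ _

theorem finrank_VQ
    (hPQ : AlgebraicIndependent ℚ (fun ij : Fin (n + k) × Fin 2 => Fin.append P Q ij.1 ij.2))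
    (w : Fin n → ℕ) (S : Finset (Fin k)) (d : ℕ) :
    Module.finrank ℂ ↥(VQ P Q w S d) =
      Module.finrank ℂ ↥(VS (fun i => aff (P i)) w d) - S.card := by
  rw [VQ_eq, simple_set hPQ, VS_append, Finset.card_map]
  intro i hi
  obtain ⟨j, -, rfl⟩ := Finset.mem_map.1 hi
  exact Fin.append_right _ _ _

/-- a form through the points of `S` needs `#S + 1` dimensions -/
theorem card_lt
    (hPQ : AlgebraicIndependent ℚ (fun ij : Fin (n + k) × Fin 2 => Fin.append P Q ij.1 ij.2))
    {w : Fin n → ℕ} {S : Finset (Fin k)} {d : ℕ} {f : MvPolynomial (Fin 3) ℂ}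
    (hf : f ∈ VQ P Q w S d) (h0 : f ≠ 0) :
    S.card + 1 ≤ Module.finrank ℂ ↥(VS (fun i => aff (P i)) w d) := by
  have h1 := finrank_VQ hPQ w S d
  have hfin := vs_fin (fun i => aff (P i)) w d
  have hfin2 : Module.Finite ℂ ↥(VQ P Q w S d) :=
    Submodule.finiteDimensional_of_le (S₂ := VS (fun i => aff (P i)) w d) fun g hg => hg.1
  have h2 : 0 < Module.finrank ℂ ↥(VQ P Q w S d) := by
    rw [Module.finrank_pos_iff_exists_ne_zero]
    exact ⟨⟨f, hf⟩, fun h => h0 (congrArg Subtype.val h)⟩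
  omega

theorem ph_mem {τ : ℂ ≃+* ℂ} {σ : Equiv.Perm (Fin n)} (h : Acts P Q τ σ) {m d : ℕ}
    {f : MvPolynomial (Fin 3) ℂ} (hf : f ∈ VS (fun i => aff (P i)) (fun _ => m) d) :
    ph τ f ∈ VS (fun i => aff (P i)) (fun _ => m) d := by
  rw [mem_VS] at hf ⊢
  refine ⟨ph_hom τ hf.1, fun i => ?_⟩
  have h1 := (h.van (σ.symm i) m f).2 (hf.2 _)
  rwa [σ.apply_symm_apply] at h1

theorem ph_memQ {τ : ℂ ≃+* ℂ} {σ : Equiv.Perm (Fin n)} (h : Acts P Q τ σ) {m d : ℕ}
    {S : Finset (Fin k)} {f : MvPolynomial (Fin 3) ℂ} (hf : f ∈ VQ P Q (fun _ => m) S d) :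
    ph τ f ∈ VQ P Q (fun _ => m) S d := by
  refine ⟨ph_mem h hf.1, fun j hj => ?_⟩
  rw [← van_one, h.vanQ, van_one]
  exact hf.2 j hj

theorem hom_zero_unit {f : MvPolynomial (Fin 3) ℂ} (h0 : f ≠ 0) (h : f.totalDegree = 0) :
    IsUnit f := by
  have h1 : Associated f 1 := by
    have h2 := assoc_of_dvd (A := (1 : MvPolynomial (Fin 3) ℂ)) h0 (one_dvd f) (by omega)
    exact h2.symm
  exact (associated_one_iff_isUnit).1 h1

theorem deg_pos_of_not_unit {f : MvPolynomial (Fin 3) ℂ} (h0 : f ≠ 0) (h : ¬ IsUnit f) :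
    1 ≤ f.totalDegree := by
  by_contra hcon
  exact h (hom_zero_unit h0 (by omega))

theorem not_unit_of_deg {f : MvPolynomial (Fin 3) ℂ} (h : 1 ≤ f.totalDegree) : ¬ IsUnit f := by
  intro hu
  have h1 := hu.dvd (a := (1 : MvPolynomial (Fin 3) ℂ))
  obtain ⟨g, hg⟩ := h1
  have hf0 : f ≠ 0 := by rintro rfl; simp at h
  have hg0 : g ≠ 0 := by rintro rfl; simp at hg
  have h2 := congrArg totalDegree hg
  rw [totalDegree_mul_of_isDomain hf0 hg0] at h2
  simp at h2
  omega

theorem hh_zero_le (n m : ℕ) : hh n 0 m ≤ 1 := by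
  unfold hh
  simp

section

variable (hn : 10 ≤ n)
  (hPQ : AlgebraicIndependent ℚ (fun ij : Fin (n + k) × Fin 2 => Fin.append P Q ij.1 ij.2))
  (hU : ∀ e a, Module.finrank ℂ ↥(VS (fun i => aff (P i)) (fun _ : Fin n => a) e) = hh n e a)

include hn hPQ hU

/-- two parts of a curve of a uniform system which have equal multiplicities at the points `P` -/
theorem split_main {m d e e' a : ℕ} (hd : e + e' = d) {A B : MvPolynomial (Fin 3) ℂ} (hA0 : A ≠ 0)
    (hB0 : B ≠ 0) (hA : A.IsHomogeneous e) (hAa : ∀ i, Ord (aff (P i)) a A)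
    (hAB : A * B ∈ VS (fun i => aff (P i)) (fun _ => m) d) (he : 1 ≤ e) (he' : 1 ≤ e') :
    ((Finset.univ.filter fun j => eval (aff (Q j)) A = 0).card + 1) +
      ((Finset.univ.filter fun j => eval (aff (Q j)) B = 0).card + 1) ≤ hh n d m := by
  classical
  rw [mem_VS] at hAB
  have hB : B.IsHomogeneous e' := by
    have h1 := Pool.Agent.Chud.homog_of_dvd hAB.1 (mul_ne_zero hA0 hB0) ⟨A, mul_comm A B⟩
    have h2 : (A * B).totalDegree = d := hAB.1.totalDegree (mul_ne_zero hA0 hB0)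
    rw [totalDegree_mul_of_isDomain hA0 hB0, hA.totalDegree hA0] at h2
    have h3 : B.totalDegree = e' := by omega
    rwa [h3] at h1
  have hA1 : A ∈ VQ P Q (fun _ => a) (Finset.univ.filter fun j => eval (aff (Q j)) A = 0) e :=
    ⟨(mem_VS _ _ _ _).2 ⟨hA, fun i => (hAa i).1⟩, fun j hj => (Finset.mem_filter.1 hj).2⟩
  have hB1 : B ∈ VQ P Q (fun _ => m - a) (Finset.univ.filter fun j => eval (aff (Q j)) B = 0)
      e' := by
    refine ⟨(mem_VS _ _ _ _).2 ⟨hB, fun i => ?_⟩, fun j hj => (Finset.mem_filter.1 hj).2⟩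
    rcases le_or_gt a m with h | h
    · refine van_of_mul (hAa i) ?_
      rw [Nat.add_sub_cancel' h]
      exact hAB.2 i
    · have : m - a = 0 := by omega
      rw [this]
      exact van_zero _ _
  have h1 := card_lt hPQ hA1 hA0
  have h2 := card_lt hPQ hB1 hB0
  rw [hU] at h1 h2
  have h3 := split_sub (n := n) (e := e) (a := a) (e' := e') (m := m) hn he he' (by omega)
    (by omega)
  rw [hd] at h3
  omega

/-- **no fixed part** -/
theorem nofix {m d : ℕ} (h2 : 2 ≤ hh n d m) {G : MvPolynomial (Fin 3) ℂ}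
    (hG : ∀ F ∈ VS (fun i => aff (P i)) (fun _ : Fin n => m) d, G ∣ F) : IsUnit G := by
  classical
  have hfin := vs_fin (fun i => aff (P i)) (fun _ : Fin n => m) d
  have hbot : VS (fun i => aff (P i)) (fun _ : Fin n => m) d ≠ ⊥ := by
    intro h
    have := hU d m
    rw [h, finrank_bot] at this
    omega
  obtain ⟨F0, hF0, h0⟩ := Submodule.exists_mem_ne_zero_of_ne_bot hbot
  obtain ⟨H, hH0, hH⟩ := exists_gcd
    (VS (fun i => aff (P i)) (fun _ : Fin n => m) d : Set (MvPolynomial (Fin 3) ℂ)) hF0 h0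
  have hHd : ∀ F ∈ VS (fun i => aff (P i)) (fun _ : Fin n => m) d, H ∣ F := (hH H).1 dvd_rfl
  have hF0' := (mem_VS _ _ _ _).1 hF0
  have hHh := Pool.Agent.Chud.homog_of_dvd hF0'.1 h0 (hHd F0 hF0)
  obtain ⟨e, he⟩ : ∃ e, e = H.totalDegree := ⟨_, rfl⟩
  rw [← he] at hHh
  have hinv : Inv P Q H := by
    intro τ σ hτ
    refine assoc_of_dvd hH0 ((hH _).2 fun F hF => ?_) ?_
    · have h3 := ph_dvd τ (hHd _ (ph_mem hτ.symm hF))
      rwa [ph_symm_apply] at h3
    · rw [(ph_hom τ hHh).totalDegree (ph_ne τ hH0), ← he]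
  obtain ⟨a, ha⟩ := hinv.uniform hPQ hH0 hHh (by omega)
  have hed : e ≤ d := by
    obtain ⟨c, hc⟩ := hHd F0 hF0
    have hc0 : c ≠ 0 := by
      rintro rfl
      exact h0 (by rw [hc, mul_zero])
    have h3 : F0.totalDegree = d := hF0'.1.totalDegree h0
    rw [hc, totalDegree_mul_of_isDomain hH0 hc0] at h3
    omega
  have h1 : 1 ≤ hh n e a := by
    have h3 := card_lt (S := ∅) hPQ (w := fun _ => a) (d := e) (f := H)
      ⟨(mem_VS _ _ _ _).2 ⟨hHh, fun i => (ha i).1⟩, fun j hj => absurd hj (Finset.notMem_empty j)⟩ hH0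
    rw [hU] at h3
    omega
  have hlt := hh_succ_lt (n := n) (e := d) (m := m) (by omega) (by omega)
  have ham : a ≤ m := by
    by_contra hcon
    push Not at hcon
    have h3 : VS (fun i => aff (P i)) (fun _ : Fin n => m) d ≤
        VS (fun i => aff (P i)) (fun _ : Fin n => m + 1) d := by
      intro F hF
      obtain ⟨c, hc⟩ := hHd F hF
      refine (mem_VS _ _ _ _).2 ⟨((mem_VS _ _ _ _).1 hF).1, fun i => ?_⟩
      rw [hc]
      refine van_mono (show m + 1 ≤ a + 0 by omega) (van_mul (ha i).1 (van_zero _ _))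
    have hfin2 := vs_fin (fun i => aff (P i)) (fun _ : Fin n => m + 1) d
    have h4 := Submodule.finrank_mono h3
    rw [hU, hU] at h4
    omega
  have h5 := vs_finrank (P := P) hH0 hHh (u := fun _ => a) ha (d := d - e) (w := fun _ => m - a)
    (by
      intro f hf
      have e1 : (fun _ : Fin n => m - a + a) = fun _ => m := by
        funext _
        omega
      rw [e1, Nat.sub_add_cancel hed] at hf
      exact hHd f hf)
  have e1 : (fun _ : Fin n => m - a + a) = fun _ => m := by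
    funext _
    omega
  rw [e1, Nat.sub_add_cancel hed, hU, hU] at h5
  rcases Nat.eq_zero_or_pos e with he0 | he1
  · have h6 : IsUnit H := hom_zero_unit hH0 (by omega)
    exact isUnit_of_dvd_unit ((hH G).2 hG) h6
  · exfalso
    rcases Nat.eq_zero_or_pos (d - e) with h7 | h7
    · rw [h7] at h5
      have := hh_zero_le n (m - a)
      omega
    · have h8 := split_sub (n := n) (e := e) (a := a) (e' := d - e) (m := m) hn he1 h7 h1 (by omega)
      rw [Nat.add_sub_cancel' hed] at h8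
      omega

/-- the form spanning the system through the points `Q` -/
theorem span_one {m d : ℕ} (hk : hh n d m = k + 1) {F F' : MvPolynomial (Fin 3) ℂ}
    (hF : F ∈ VQ P Q (fun _ => m) Finset.univ d) (hF0 : F ≠ 0)
    (hF' : F' ∈ VQ P Q (fun _ => m) Finset.univ d) : ∃ c : ℂ, F' = c • F := by
  have h1 := finrank_VQ hPQ (fun _ => m) (Finset.univ) d
  rw [hU, Finset.card_univ, Fintype.card_fin, hk] at h1
  have h2 : Module.finrank ℂ ↥(VQ P Q (fun _ => m) Finset.univ d) = 1 := by omega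
  have h3 := (finrank_eq_one_iff_of_nonzero' (⟨F, hF⟩ : ↥(VQ P Q (fun _ => m) Finset.univ d))
    (fun h => hF0 (congrArg Subtype.val h))).1 h2 ⟨F', hF'⟩
  obtain ⟨c, hc⟩ := h3
  exact ⟨c, (congrArg Subtype.val hc).symm⟩

theorem inv_F {m d : ℕ} (hk : hh n d m = k + 1) {F : MvPolynomial (Fin 3) ℂ}
    (hF : F ∈ VQ P Q (fun _ => m) Finset.univ d) (hF0 : F ≠ 0) : Inv P Q F := by
  intro τ σ hτ
  obtain ⟨c, hc⟩ := span_one hn hPQ hU hk hF hF0 (ph_memQ hτ hF)
  have hhom := ((mem_VS _ _ _ _).1 hF.1).1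
  refine (assoc_of_dvd (ph_ne τ hF0) ⟨C c, ?_⟩ ?_).symm
  · rw [hc, smul_eq_C_mul, mul_comm]
  · rw [(ph_hom τ hhom).totalDegree (ph_ne τ hF0), hhom.totalDegree hF0]

/-- **irreducible members** -/
theorem irr {m d : ℕ} (hk1 : 1 ≤ k) (hk : hh n d m = k + 1) {F : MvPolynomial (Fin 3) ℂ}
    (hF : F ∈ VQ P Q (fun _ => m) Finset.univ d) (hF0 : F ≠ 0) : Irreducible F := by
  classical
  have hFi := inv_F hn hPQ hU hk hF hF0
  obtain ⟨hFh, hFm⟩ := (mem_VS _ _ _ _).1 hF.1
  have hd1 : 1 ≤ d := by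
    by_contra hcon
    have h0 : d = 0 := by omega
    rw [h0] at hk
    have := hh_zero_le n m
    omega
  have hFd : F.totalDegree = d := hFh.totalDegree hF0
  obtain ⟨G, hGi, F1, hGF⟩ := WfDvdMonoid.exists_irreducible_factor
    (not_unit_of_deg (by omega : 1 ≤ F.totalDegree)) hF0
  have hG0 := hGi.ne_zero
  have hF10 : F1 ≠ 0 := by
    rintro rfl
    exact hF0 (by rw [hGF, mul_zero])
  have hGd : G.totalDegree + F1.totalDegree = d := by
    rw [← totalDegree_mul_of_isDomain hG0 hF10, ← hGF, hFd]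
  have hGh := Pool.Agent.Chud.homog_of_dvd hFh hF0 ⟨F1, hGF⟩
  have hF1h := Pool.Agent.Chud.homog_of_dvd hFh hF0 ⟨G, by rw [hGF, mul_comm]⟩
  obtain ⟨f, hf⟩ : ∃ f, f = G.totalDegree := ⟨_, rfl⟩
  obtain ⟨f1, hf1⟩ : ∃ f1, f1 = F1.totalDegree := ⟨_, rfl⟩
  rw [← hf] at hGh hGd
  rw [← hf1] at hF1h hGd
  have hfpos : 1 ≤ f := by
    rw [hf]
    exact deg_pos_of_not_unit hG0 hGi.not_isUnit
  rcases Nat.eq_zero_or_pos f1 with h0 | hf1pos
  · have h1 : IsUnit F1 := hom_zero_unit hF10 (by omega)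
    rw [hGF]
    exact (irreducible_mul_isUnit h1).2 hGi
  exfalso
  -- the multiplicities of `G`
  have hex : ∀ i, ∃ m, Ord (aff (P i)) m G := fun i => exists_ord hG0 hGh
  choose w hw using hex
  have hF1w : F1 ∈ VS (fun i => aff (P i)) (fun i => m - w i) f1 := by
    refine (mem_VS _ _ _ _).2 ⟨hF1h, fun i => ?_⟩
    rcases le_or_gt (w i) m with h | h
    · refine van_of_mul (hw i) ?_
      rw [Nat.add_sub_cancel' h, ← hGF]
      exact hFm i
    · have : m - w i = 0 := by omega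
      rw [this]
      exact van_zero _ _
  have hQ : ∀ j, eval (aff (Q j)) G = 0 ∨ eval (aff (Q j)) F1 = 0 := by
    intro j
    have h1 := hF.2 j (Finset.mem_univ j)
    rw [hGF, map_mul] at h1
    exact mul_eq_zero.1 h1
  -- the factor is invariant
  have hGinv : Inv P Q G := by
    intro τ σ hτ
    by_contra hcon
    have hd : ph τ G ∣ G * F1 := by
      rw [← hGF]
      exact (ph_dvd τ ⟨F1, hGF⟩).trans (hFi τ σ hτ).dvd
    have hpr : Prime (ph τ G) := (ph_irr τ hGi).prime
    have hd1 : ph τ G ∣ F1 := by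
      rcases hpr.dvd_or_dvd hd with h | h
      · exact absurd ((ph_irr τ hGi).associated_of_dvd hGi h) hcon
      · exact h
    have hF1Q : F1 ∈ VQ P Q (fun i => m - w i) Finset.univ f1 := by
      refine ⟨hF1w, fun j _ => ?_⟩
      rcases hQ j with h | h
      · have h1 : Van (aff (Q j)) 1 (ph τ G) := by
          rw [hτ.vanQ, van_one]
          exact h
        obtain ⟨c, hc⟩ := hd1
        rw [van_one] at h1
        rw [hc, map_mul, h1, zero_mul]
      · exact h
    have hcard := card_lt hPQ hF1Q hF10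
    rw [Finset.card_univ, Fintype.card_fin] at hcard
    -- multiplication by `G`
    have hinj : Function.Injective (LinearMap.mulLeft ℂ G) := by
      intro x y hxy
      rw [LinearMap.mulLeft_apply, LinearMap.mulLeft_apply] at hxy
      exact mul_left_cancel₀ hG0 hxy
    have hmap : Submodule.map (LinearMap.mulLeft ℂ G)
        (VS (fun i => aff (P i)) (fun i => m - w i) f1) ≤
          VS (fun i => aff (P i)) (fun _ : Fin n => m) d := by
      rintro _ ⟨g, hg, rfl⟩
      rw [SetLike.mem_coe, mem_VS] at hg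
      rw [LinearMap.mulLeft_apply, mem_VS]
      refine ⟨?_, fun i => ?_⟩
      · rw [← hGd]
        exact hGh.mul hg.1
      · exact van_mono (show m ≤ w i + (m - w i) by omega) (van_mul (hw i).1 (hg.2 i))
    have hfin := vs_fin (fun i => aff (P i)) (fun _ : Fin n => m) d
    have heq := Submodule.eq_of_le_of_finrank_le hmap (by
      rw [← (LinearEquiv.finrank_eq (Submodule.equivMapOfInjective _ hinj _)), hU, hk]
      exact hcard)
    have hu : IsUnit G := nofix hn hPQ hU (m := m) (d := d) (by omega) (G := G) (by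
      intro F' hF'
      rw [← heq] at hF'
      obtain ⟨g, -, hg⟩ := hF'
      exact ⟨g, hg.symm⟩)
    exact hGi.not_isUnit hu
  obtain ⟨a, ha⟩ := hGinv.uniform hPQ hG0 hGh (by omega)
  have h1 := split_main hn hPQ hU (m := m) hGd hG0 hF10 hGh ha (by rw [← hGF]; exact hF.1) hfpos
    hf1pos
  have h2 : k ≤ (Finset.univ.filter fun j => eval (aff (Q j)) G = 0).card +
      (Finset.univ.filter fun j => eval (aff (Q j)) F1 = 0).card := by
    have h3 := Finset.card_union_le (Finset.univ.filter fun j => eval (aff (Q j)) G = 0)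
      (Finset.univ.filter fun j => eval (aff (Q j)) F1 = 0)
    have h4 : (Finset.univ.filter fun j => eval (aff (Q j)) G = 0) ∪
        (Finset.univ.filter fun j => eval (aff (Q j)) F1 = 0) = Finset.univ := by
      ext j
      simp only [Finset.mem_union, Finset.mem_filter, Finset.mem_univ, true_and, iff_true]
      exact hQ j
    rw [h4, Finset.card_univ, Fintype.card_fin] at h3
    exact h3
  omega

/-- the multiplicities at the points `P` are exactly `m` -/
theorem exact_mult {m d : ℕ} (hk : hh n d m = k + 1) {F : MvPolynomial (Fin 3) ℂ}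
    (hF : F ∈ VQ P Q (fun _ => m) Finset.univ d) (hF0 : F ≠ 0) (i : Fin n) :
    Ord (aff (P i)) m F := by
  obtain ⟨hFh, hFm⟩ := (mem_VS _ _ _ _).1 hF.1
  obtain ⟨a, ha⟩ := (inv_F hn hPQ hU hk hF hF0).uniform hPQ hF0 hFh (by omega)
  have h1 : ∀ i, ¬ Van (aff (P i)) (m + 1) F := by
    intro i hi
    have h2 : m + 1 ≤ a := by
      by_contra hcon
      exact (ha i).2 (van_mono (by omega) hi)
    have h3 : F ∈ VQ P Q (fun _ => m + 1) Finset.univ d :=
      ⟨(mem_VS _ _ _ _).2 ⟨hFh, fun i => van_mono h2 (ha i).1⟩, hF.2⟩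
    have h4 := card_lt hPQ h3 hF0
    rw [hU, Finset.card_univ, Fintype.card_fin] at h4
    have h5 := hh_succ_lt (n := n) (e := d) (m := m) (by omega) (by omega)
    omega
  exact ⟨hFm i, h1 i⟩

/-- invariant factors of the only curve of a system are trivial -/
theorem star {m d : ℕ} (hk : hh n d m = 1) {F H : MvPolynomial (Fin 3) ℂ}
    (hF : F ∈ VS (fun i => aff (P i)) (fun _ : Fin n => m) d) (hF0 : F ≠ 0) (hH : H ∣ F)
    (hinv : Inv P Q H) (hnu : ¬ IsUnit H) : Associated H F := by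
  classical
  obtain ⟨B, hB⟩ := hH
  have hH0 : H ≠ 0 := by
    rintro rfl
    exact hF0 (by rw [hB, zero_mul])
  have hB0 : B ≠ 0 := by
    rintro rfl
    exact hF0 (by rw [hB, mul_zero])
  obtain ⟨hFh, hFm⟩ := (mem_VS _ _ _ _).1 hF
  have hHh := Pool.Agent.Chud.homog_of_dvd hFh hF0 ⟨B, hB⟩
  obtain ⟨a, ha⟩ := hinv.uniform hPQ hH0 hHh (by omega)
  have hd : H.totalDegree + B.totalDegree = d := by
    rw [← totalDegree_mul_of_isDomain hH0 hB0, ← hB]
    exact hFh.totalDegree hF0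
  rcases Nat.eq_zero_or_pos B.totalDegree with h0 | hpos
  · have h1 : IsUnit B := hom_zero_unit hB0 h0
    rw [hB]
    exact (associated_mul_unit_right H B h1)
  · exfalso
    have h1 := split_main hn hPQ hU (m := m) hd hH0 hB0 hHh ha (by rw [← hB]; exact hF)
      (deg_pos_of_not_unit hH0 hnu) hpos
    omega

/-- **the components of the only curve of a system are conjugate and reduced** -/
theorem orbit {m d : ℕ} (hk : hh n d m = 1) {F : MvPolynomial (Fin 3) ℂ}
    (hF : F ∈ VS (fun i => aff (P i)) (fun _ : Fin n => m) d) (hF0 : F ≠ 0) (hFi : Inv P Q F)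
    {G : MvPolynomial (Fin 3) ℂ} (hGi : Irreducible G) (hG : G ∣ F) :
    ¬ G * G ∣ F ∧ ∀ G', Irreducible G' → G' ∣ F →
      ∃ τ σ, Acts P Q τ σ ∧ Associated (ph τ G) G' := by
  classical
  obtain ⟨hFh, hFm⟩ := (mem_VS _ _ _ _).1 hF
  obtain ⟨S, hS⟩ : ∃ S : Set (MvPolynomial (Fin 3) ℂ),
      S = {D | ∀ τ σ, Acts P Q τ σ → ph τ G ∣ D} := ⟨_, rfl⟩
  have hFd : ∀ τ σ, Acts P Q τ σ → ph τ G ∣ F := fun τ σ hτ =>
    (ph_dvd τ hG).trans (hFi τ σ hτ).dvd
  have hFS : F ∈ S := by
    rw [hS]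
    exact hFd
  obtain ⟨H, hH0, hH⟩ := exists_gcd S hFS hF0
  have hHS : ∀ D ∈ S, H ∣ D := (hH H).1 dvd_rfl
  have hGH : ∀ τ σ, Acts P Q τ σ → ph τ G ∣ H := fun τ σ hτ => (hH _).2 fun D hD => by
    rw [hS] at hD
    exact hD τ σ hτ
  have hHh := Pool.Agent.Chud.homog_of_dvd hFh hF0 (hHS F hFS)
  have hHinv : Inv P Q H := by
    intro τ' σ' hτ'
    refine assoc_of_dvd hH0 ((hH _).2 fun D hD => ?_) ?_
    · have h1 : ph τ'.symm D ∈ S := by
        rw [hS] at hD ⊢
        intro τ σ hτ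
        have h2 := ph_dvd τ'.symm (hD _ _ (hτ.trans hτ'))
        rw [ph_trans] at h2
        have h3 : ph τ'.symm (ph τ' (ph τ G)) = ph τ G := by
          have := ph_symm_apply τ'.symm (ph τ G)
          rwa [RingEquiv.symm_symm] at this
        rwa [h3] at h2
      have h2 := ph_dvd τ' (hHS _ h1)
      rwa [ph_symm_apply] at h2
    · rw [(ph_hom τ' hHh).totalDegree (ph_ne τ' hH0)]
  have hact : Acts P Q (RingEquiv.refl ℂ) (Equiv.refl (Fin n)) :=
    ⟨fun i b => rfl, fun j b => rfl⟩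
  have hHnu : ¬ IsUnit H := by
    intro hu
    have h1 := hGH _ _ hact
    exact (ph_irr (RingEquiv.refl ℂ) hGi).not_isUnit (isUnit_of_dvd_unit h1 hu)
  have hHF := star hn hPQ hU hk hF hF0 (hHS F hFS) hHinv hHnu
  have hmin : ∀ D ∈ S, F ∣ D := fun D hD => hHF.symm.dvd.trans (hHS D hD)
  -- a proper cofactor is not in `S`
  have hprop : ∀ A D : MvPolynomial (Fin 3) ℂ, Irreducible A → F = A * D → D ∉ S := by
    intro A D hA hAD hD
    have hD0 : D ≠ 0 := by
      rintro rfl
      exact hF0 (by rw [hAD, mul_zero])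
    obtain ⟨c, hc⟩ := hmin D hD
    have hc0 : c ≠ 0 := by
      rintro rfl
      exact hD0 (by rw [hc, mul_zero])
    have h1 := congrArg totalDegree hAD
    rw [totalDegree_mul_of_isDomain hA.ne_zero hD0] at h1
    have h2 := congrArg totalDegree hc
    rw [totalDegree_mul_of_isDomain hF0 hc0] at h2
    have h3 := deg_pos_of_not_unit hA.ne_zero hA.not_isUnit
    omega
  constructor
  · rintro ⟨B, hB⟩
    refine hprop G (G * B) hGi (by rw [hB, mul_assoc]) ?_
    rw [hS]
    intro τ σ hτ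
    have h1 : ph τ G ∣ G * (G * B) := by
      rw [← mul_assoc, ← hB]
      exact hFd τ σ hτ
    rcases (ph_irr τ hGi).prime.dvd_or_dvd h1 with h | h
    · exact h.trans (dvd_mul_right G B)
    · exact h
  · intro G' hG'i hG'
    by_contra hcon
    push Not at hcon
    obtain ⟨D, hD⟩ := hG'
    refine hprop G' D hG'i hD ?_
    rw [hS]
    intro τ σ hτ
    have h1 : ph τ G ∣ G' * D := by
      rw [← hD]
      exact hFd τ σ hτ
    rcases (ph_irr τ hGi).prime.dvd_or_dvd h1 with h | h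
    · exact absurd ((ph_irr τ hGi).associated_of_dvd hG'i h) (hcon τ σ hτ)
    · exact h

end

end Pool.Agent.Q299.IR
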