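import Mathlib

set_option autoImplicit false

/-!
# Uniform systems: the arithmetic of the expected dimensions
-/

namespace Pool.Agent.Q299.IR

/-- the expected dimension of the system of degree `x` with `n` points of multiplicity `y` -/
def hh (n x y : ℕ) : ℕ := (x + 2).choose 2 - n * (y + 1).choose 2

theorem two_ch (x : ℕ) : 2 * (x + 1).choose 2 = (x + 1) * x := by
  have h := Nat.triangle_succ x
  rw [Nat.choose_two_right, Nat.add_sub_cancel]
  obtain ⟨c, hc⟩ : 2 ∣ (x + 1) * x := by
    rw [mul_comm]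
    exact (Nat.even_mul_succ_self x).two_dvd
  rw [hc]
  omega

theorem two_ch' (x : ℕ) : 2 * (x + 2).choose 2 = (x + 2) * (x + 1) := two_ch (x + 1)

/-- effective uniform classes have positive self-intersection -/
theorem sq_lt {n e a : ℕ} (hn : 10 ≤ n) (h : 1 ≤ hh n e a) (ha : 1 ≤ a) :
    n * (a * a) < e * e := by
  unfold hh at h
  have h1 := two_ch' e
  have h2 := two_ch a
  have h3 : n * (a + 1).choose 2 + 1 ≤ (e + 2).choose 2 := by omega
  have h4 : n * ((a + 1) * a) + 2 ≤ (e + 2) * (e + 1) := by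
    have e1 : 2 * (n * (a + 1).choose 2) = n * ((a + 1) * a) := by rw [← h2]; ring
    omega
  by_contra hcon
  push Not at hcon
  have h5 : n * a ≤ 3 * e := by nlinarith
  have h6 : (n * a) * (n * a) ≤ (3 * e) * (3 * e) := Nat.mul_le_mul h5 h5
  have h7 : (3 * e) * (3 * e) ≤ 9 * (n * (a * a)) := by
    calc (3 * e) * (3 * e) = 9 * (e * e) := by ring
      _ ≤ 9 * (n * (a * a)) := Nat.mul_le_mul_left _ hcon
  have h8 : n * (n * (a * a)) ≤ 9 * (n * (a * a)) := by
    calc n * (n * (a * a)) = (n * a) * (n * a) := by ring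
      _ ≤ _ := h6.trans h7
  have h9 : 0 < n * (a * a) := by positivity
  have h10 := Nat.le_of_mul_le_mul_right h8 h9
  omega

/-- two effective uniform classes of positive degree meet -/
theorem inter_pos {n e a e' a' : ℕ} (hn : 10 ≤ n) (he : 1 ≤ e) (he' : 1 ≤ e')
    (h : 1 ≤ hh n e a) (h' : 1 ≤ hh n e' a') : n * (a * a') < e * e' := by
  rcases Nat.eq_zero_or_pos a with rfl | ha
  · simpa using Nat.mul_pos he he'
  rcases Nat.eq_zero_or_pos a' with rfl | ha'
  · simpa using Nat.mul_pos he he'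
  have h1 := sq_lt hn h ha
  have h2 := sq_lt hn h' ha'
  by_contra hcon
  push Not at hcon
  have h3 : (e * e') * (e * e') ≤ (n * (a * a')) * (n * (a * a')) := Nat.mul_le_mul hcon hcon
  have h4 : (n * (a * a)) * (n * (a' * a')) < (e * e) * (e' * e') :=
    Nat.mul_lt_mul'' h1 h2
  have e1 : (e * e') * (e * e') = (e * e) * (e' * e') := by ring
  have e2 : (n * (a * a')) * (n * (a * a')) = (n * (a * a)) * (n * (a' * a')) := by ring
  omega

/-- the dimensions of two uniform systems and of their sum, multiplicities `a` and `b` -/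
theorem split_le {n e a e' b : ℕ} (hn : 10 ≤ n) (he : 1 ≤ e) (he' : 1 ≤ e')
    (h : 1 ≤ hh n e a) (h' : 1 ≤ hh n e' b) :
    hh n e a + hh n e' b ≤ hh n (e + e') (a + b) := by
  have hI := inter_pos hn he he' h h'
  unfold hh at *
  have h1 := two_ch' e
  have h2 := two_ch a
  have h3 := two_ch' e'
  have h4 := two_ch b
  have h5 := two_ch' (e + e')
  have h6 := two_ch (a + b)
  have q1 : 2 * (n * (a + 1).choose 2) = n * ((a + 1) * a) := by rw [← h2]; ring
  have q2 : 2 * (n * (b + 1).choose 2) = n * ((b + 1) * b) := by rw [← h4]; ring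
  have q3 : 2 * (n * (a + b + 1).choose 2) = n * ((a + b + 1) * (a + b)) := by rw [← h6]; ring
  have q4 : (e + e' + 2) * (e + e' + 1) + 2 =
      (e + 2) * (e + 1) + (e' + 2) * (e' + 1) + 2 * (e * e') := by ring
  have q5 : n * ((a + b + 1) * (a + b)) =
      n * ((a + 1) * a) + n * ((b + 1) * b) + 2 * (n * (a * b)) := by ring
  omega

theorem hh_anti {n e a b : ℕ} (h : a ≤ b) : hh n e b ≤ hh n e a := by
  unfold hh
  have h1 : (a + 1).choose 2 ≤ (b + 1).choose 2 := Nat.choose_le_choose 2 (by omega)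
  have h2 := Nat.mul_le_mul_left n h1
  omega

/-- the dimensions of two uniform systems and of a system containing their products -/
theorem split_sub {n e a e' m : ℕ} (hn : 10 ≤ n) (he : 1 ≤ e) (he' : 1 ≤ e')
    (h : 1 ≤ hh n e a) (h' : 1 ≤ hh n e' (m - a)) :
    hh n e a + hh n e' (m - a) ≤ hh n (e + e') m := by
  rcases le_or_gt a m with ha | ha
  · have h1 := split_le hn he he' h h'
    rwa [Nat.add_sub_cancel' ha] at h1
  · have h0 : m - a = 0 := by omega
    have h1 : hh n e a ≤ hh n e m := hh_anti ha.le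
    rw [h0] at h' ⊢
    have h2 := split_le (a := m) (b := 0) hn he he' (by omega) h'
    rw [Nat.add_zero] at h2
    omega

theorem hh_succ_lt {n e m : ℕ} (hn : 1 ≤ n) (h : 1 ≤ hh n e m) : hh n e (m + 1) < hh n e m := by
  unfold hh at *
  have h1 := two_ch m
  have h2 := two_ch (m + 1)
  have q1 : (m + 1 + 1).choose 2 = (m + 1).choose 2 + (m + 1) := by
    have : (m + 1 + 1) * (m + 1) = (m + 1) * m + 2 * (m + 1) := by ring
    omega
  rw [q1, Nat.mul_add]
  have h3 : 1 ≤ n * (m + 1) := Nat.mul_pos hn (by omega)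
  omega

end Pool.Agent.Q299.IR
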