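import Pool.Agent.Q255.IR.Stm

/-! Project IR (helper255), job BLOCKS (helper299): counting the words whose block sums follow a drift. -/

set_option autoImplicit false

namespace Pool.Agent.Q299.IR

open Filter Topology MeasureTheory Pool.Agent.Q255.IC Pool.Agent.Q255.IR

namespace Blk

/-- extension of a word by `false` -/
def ext {n : ℕ} (s : Fin n → Bool) (k : ℕ) : Bool := if h : k < n then s ⟨k, h⟩ else false

theorem ext_lt {n : ℕ} (s : Fin n → Bool) {k : ℕ} (h : k < n) : ext s k = s ⟨k, h⟩ := by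
  unfold ext
  rw [dif_pos h]

theorem S_congr {b : ℕ → ℝ} {ω ω' : ℕ → Bool} {n : ℕ} (h : ∀ k < n, ω k = ω' k) : S b ω n = S b ω' n := by
  unfold S
  refine Finset.sum_congr rfl fun k hk => ?_
  unfold sg
  rw [h k (Finset.mem_range.1 hk)]

/-- the words of length `N m` with prescribed block sums up to `ε` -/
noncomputable def Wd (b : ℕ → ℝ) (N : ℕ → ℕ) (c : ℕ → ℝ) (ε : ℝ) (J m : ℕ) : Finset (Fin (N m) → Bool) := by
  classical
  exact Finset.univ.filter fun s => ∀ j, J ≤ j → j < m → |(S b (ext s) (N (j + 1)) - S b (ext s) (N j)) - c j| ≤ ε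

theorem mem_Wd {b : ℕ → ℝ} {N : ℕ → ℕ} {c : ℕ → ℝ} {ε : ℝ} {J m : ℕ} {s : Fin (N m) → Bool} :
    s ∈ Wd b N c ε J m ↔ ∀ j, J ≤ j → j < m → |(S b (ext s) (N (j + 1)) - S b (ext s) (N j)) - c j| ≤ ε := by
  classical
  unfold Wd
  simp

theorem blk_sum (b : ℕ → ℝ) (ω : ℕ → Bool) {u v : ℕ} (h : u ≤ v) :
    S b ω v - S b ω u = ∑ i : Fin (v - u), (if ω (u + i) then (1 : ℝ) else -1) * b (u + i) := by
  unfold S
  rw [← Finset.sum_Ico_eq_sub _ h, Finset.sum_Ico_eq_sum_range, Finset.sum_range]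
  rfl

theorem blk_var (b : ℕ → ℝ) {u v : ℕ} (h : u ≤ v) :
    V b v - V b u = ∑ i : Fin (v - u), b (u + i) ^ 2 := by
  unfold V
  rw [← Finset.sum_Ico_eq_sub _ h, Finset.sum_Ico_eq_sum_range, Finset.sum_range]

theorem count {C : ℝ} (hC : 1 ≤ C)
    (hS : ∀ (n : ℕ) (b : Fin n → ℝ) (c δ : ℝ), 0 < δ → δ ≤ 1 → (∀ i, |b i| ≤ δ) →
      1 ≤ ∑ i, b i ^ 2 → ∑ i, b i ^ 2 ≤ 2 →
        ((Finset.univ.filter fun s : Fin n → Bool =>
          |(∑ i, (if s i then (1 : ℝ) else -1) * b i) - c| ≤ δ).card : ℝ) ≤ C * δ * 2 ^ n)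
    (b : ℕ → ℝ) (N : ℕ → ℕ) (c : ℕ → ℝ) (ε : ℝ) (J : ℕ) (hN : StrictMono N) (hε : 0 < ε) (hε1 : ε ≤ 1)
    (hb : ∀ k, N J ≤ k → |b k| ≤ ε)
    (hV : ∀ j, 1 ≤ V b (N (j + 1)) - V b (N j) ∧ V b (N (j + 1)) - V b (N j) ≤ 2) (m : ℕ) (hm : J ≤ m) :
    ((Wd b N c ε J m).card : ℝ) ≤ (C * ε) ^ (m - J) * 2 ^ (N m) := by
  classical
  induction m, hm using Nat.le_induction with
  | base =>
    have h1 : (Wd b N c ε J J).card ≤ 2 ^ (N J) := by
      refine (Finset.card_le_univ _).trans ?_
      simp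
    rw [Nat.sub_self, pow_zero, one_mul]
    exact_mod_cast h1
  | succ m hm ih =>
    have hlt : N m < N (m + 1) := hN (Nat.lt_succ_self m)
    have hNm : N J ≤ N m := hN.monotone hm
    set L := N (m + 1) - N m with hL
    have hB := hS L (fun i => b (N m + i)) (c m) ε hε hε1 (fun i => hb _ (hNm.trans (Nat.le_add_right _ _)))
      (by rw [← blk_var b hlt.le]; exact (hV m).1) (by rw [← blk_var b hlt.le]; exact (hV m).2)
    set B := (Finset.univ.filter fun s : Fin L → Bool =>
          |(∑ i, (if s i then (1 : ℝ) else -1) * b (N m + i)) - c m| ≤ ε) with hBdef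
    have hcard : (Wd b N c ε J (m + 1)).card ≤ ((Wd b N c ε J m) ×ˢ B).card := by
      refine Finset.card_le_card_of_injOn
        (fun s => ((fun k : Fin (N m) => s ⟨k, k.2.trans hlt⟩), (fun k : Fin L => s ⟨N m + k, by have := k.2; omega⟩))) ?_ ?_
      · intro s hs
        have hs' := mem_Wd.1 hs
        have hext : ∀ k < N m, ext (fun k : Fin (N m) => s ⟨k, k.2.trans hlt⟩) k = ext s k := by
          intro k hk
          rw [ext_lt _ hk, ext_lt _ (hk.trans hlt)]
        refine Finset.mem_product.2 ⟨mem_Wd.2 fun j hj hjm => ?_, ?_⟩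
        · have h1 : N (j + 1) ≤ N m := hN.monotone hjm
          have h2 : N j ≤ N m := hN.monotone hjm.le
          rw [S_congr (fun k hk => hext k (hk.trans_le h1)), S_congr (fun k hk => hext k (hk.trans_le h2))]
          exact hs' j hj (hjm.trans (Nat.lt_succ_self m))
        · rw [hBdef, Finset.mem_filter]
          refine ⟨Finset.mem_univ _, ?_⟩
          have h1 := hs' m hm (Nat.lt_succ_self m)
          rw [blk_sum b (ext s) hlt.le] at h1
          convert h1 using 6 with i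
          rw [ext_lt s (by have := i.2; omega)]
      · intro s _ s' _ h
        have h1 := congrArg Prod.fst h
        have h2 := congrArg Prod.snd h
        funext k
        by_cases hk : (k : ℕ) < N m
        · exact congrFun h1 ⟨k, hk⟩
        · have h3 := congrFun h2 ⟨k - N m, by have := k.2; omega⟩
          have h4 : (⟨N m + (k - N m), by have := k.2; omega⟩ : Fin (N (m + 1))) = k := by
            ext
            simp only
            omega
          simp only [h4] at h3
          exact h3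
    have h2 : ((Wd b N c ε J (m + 1)).card : ℝ) ≤ (Wd b N c ε J m).card * B.card := by
      rw [Finset.card_product] at hcard
      exact_mod_cast hcard
    refine h2.trans ((mul_le_mul ih hB (by positivity) (by positivity)).trans_eq ?_)
    have h3 : m + 1 - J = m - J + 1 := by omega
    have h4 : N (m + 1) = N m + L := by omega
    rw [h3, h4, pow_succ, pow_add]
    ring

end Blk

open Blk in
theorem blocks (h : S_SB) : S_BLOCKS := by
  classical
  obtain ⟨C, hC, hS⟩ := h
  refine ⟨3 * C, by linarith, ?_⟩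
  intro b g h N J m R G δ hN hJm hR hδ hδ3 hG hb hV hg
  have hG0 : 0 < G := hδ.trans_le hG
  obtain ⟨K, hK⟩ : ∃ K : ℕ, K = ⌊2 * R * G / δ⌋₊ + 1 := ⟨_, rfl⟩
  have hK1 : (K : ℝ) ≤ 4 * R * G / δ + 2 := by
    have h1 := Nat.floor_le (by positivity : 0 ≤ 2 * R * G / δ)
    have h2 : 2 * R * G / δ ≤ 4 * R * G / δ := by
      gcongr
      norm_num
    rw [hK]
    push_cast
    linarith
  obtain ⟨ρn, hρn⟩ : ∃ ρn : ℕ → ℝ, ρn = fun i : ℕ => -R + (i : ℝ) * (δ / G) := ⟨_, rfl⟩
  obtain ⟨c, hc⟩ : ∃ c : ℕ → ℕ → ℝ, c = fun i j => -(ρn i * (g (N (j + 1)) - g (N j)) + (h (N (j + 1)) - h (N j))) := ⟨_, rfl⟩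
  refine ⟨(Finset.range K).biUnion fun i => Wd b N (c i) (3 * δ) J m, ?_, ?_⟩
  · have h1 : (((Finset.range K).biUnion fun i => Wd b N (c i) (3 * δ) J m).card : ℝ) ≤
        ∑ i ∈ Finset.range K, ((Wd b N (c i) (3 * δ) J m).card : ℝ) := by
      exact_mod_cast Finset.card_biUnion_le
    refine h1.trans ?_
    have h2 : ∀ i ∈ Finset.range K, ((Wd b N (c i) (3 * δ) J m).card : ℝ) ≤ (C * (3 * δ)) ^ (m - J) * 2 ^ (N m) :=
      fun i _ => count hC hS b N (c i) (3 * δ) J hN (by linarith) hδ3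
        (fun k hk => (hb k hk).trans (by linarith)) hV m hJm
    refine (Finset.sum_le_sum h2).trans ?_
    rw [Finset.sum_const, Finset.card_range, nsmul_eq_mul]
    have h3 : C * (3 * δ) = 3 * C * δ := by ring
    rw [h3, ← mul_assoc]
    gcongr
  · rintro ω ⟨ρ, hρ, hω⟩
    have hρ' := abs_le.1 hρ
    obtain ⟨i, hi⟩ : ∃ i : ℕ, i = ⌊(ρ + R) * G / δ⌋₊ := ⟨_, rfl⟩
    have hx0 : 0 ≤ (ρ + R) * G / δ := by
      have : 0 ≤ ρ + R := by linarith
      positivity
    have hiK : i ∈ Finset.range K := by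
      rw [Finset.mem_range, hK, hi]
      refine Nat.lt_succ_of_le (Nat.floor_le_floor ?_)
      have : (ρ + R) * G ≤ 2 * R * G := by
        have : ρ + R ≤ 2 * R := by linarith
        exact mul_le_mul_of_nonneg_right this hG0.le
      gcongr
    have hdist : |ρ - ρn i| ≤ δ / G := by
      have h1 := Nat.floor_le hx0
      have h2 := Nat.lt_floor_add_one ((ρ + R) * G / δ)
      rw [← hi] at h1 h2
      have hq : 0 < δ / G := by positivity
      have h3 : (ρ + R) * G / δ * (δ / G) = ρ + R := by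
        field_simp
      have h4 : (i : ℝ) * (δ / G) ≤ ρ + R := by
        rw [← h3]
        exact mul_le_mul_of_nonneg_right h1 hq.le
      have h5 : ρ + R ≤ ((i : ℝ) + 1) * (δ / G) := by
        rw [← h3]
        exact mul_le_mul_of_nonneg_right h2.le hq.le
      rw [hρn]
      simp only
      rw [abs_le]
      constructor <;> nlinarith
    change (fun k : Fin (N m) => ω k) ∈ ((Finset.range K).biUnion fun i => Wd b N (c i) (3 * δ) J m)
    rw [Finset.mem_biUnion]
    refine ⟨i, hiK, mem_Wd.2 fun j hj hjm => ?_⟩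
    have hext : ∀ k < N m, ext (fun k : Fin (N m) => ω k) k = ω k := by
      intro k hk
      rw [ext_lt _ hk]
    have h1 : N (j + 1) ≤ N m := hN.monotone hjm
    have h2 : N j ≤ N m := hN.monotone hjm.le
    rw [S_congr (fun k hk => hext k (hk.trans_le h1)), S_congr (fun k hk => hext k (hk.trans_le h2))]
    have h3 := hω j hj hjm
    have h4 : |(ρn i - ρ) * (g (N (j + 1)) - g (N j))| ≤ δ := by
      rw [abs_mul, abs_sub_comm]
      calc |ρ - ρn i| * |g (N (j + 1)) - g (N j)| ≤ δ / G * G := by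
            gcongr
            exact hg j hjm
        _ = δ := by field_simp
    have h5 : S b ω (N (j + 1)) - S b ω (N j) - c i j =
        ((S b ω (N (j + 1)) - S b ω (N j)) + ρ * (g (N (j + 1)) - g (N j)) + (h (N (j + 1)) - h (N j))) +
          (ρn i - ρ) * (g (N (j + 1)) - g (N j)) := by
      rw [hc]
      ring
    rw [h5]
    refine (abs_add_le _ _).trans ?_
    linarith

end Pool.Agent.Q299.IR
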