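import Pool.Agent.Q255.IR.Stm

/-! Project IR (helper255), job CLOCK (helper299): blocks with slowly decreasing lengths in the clock `V`. -/

set_option autoImplicit false

namespace Pool.Agent.Q299.IR

open Filter Topology MeasureTheory Pool.Agent.Q255.IC Pool.Agent.Q255.IR

namespace Clk

theorem V_mono (b : ℕ → ℝ) : Monotone (V b) := by
  refine monotone_nat_of_le_succ fun n => ?_
  unfold V
  rw [Finset.sum_range_succ]
  have := sq_nonneg (b n)
  linarith

theorem V_succ (b : ℕ → ℝ) (n : ℕ) : V b (n + 1) = V b n + b n ^ 2 := by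
  unfold V
  rw [Finset.sum_range_succ]

/-- a nonincreasing majorant which tends to zero -/
theorem majorant {u : ℕ → ℝ} (hu : Tendsto u atTop (𝓝 0)) :
    ∃ τ : ℕ → ℝ, Antitone τ ∧ Tendsto τ atTop (𝓝 0) ∧ ∀ n k, n ≤ k → u k ≤ τ n := by
  have hb : BddAbove (Set.range u) := hu.bddAbove_range
  have hb' : ∀ n, BddAbove (Set.range fun k => u (n + k)) := by
    intro n
    refine hb.mono ?_
    rintro x ⟨k, rfl⟩
    exact ⟨n + k, rfl⟩
  have h1 : ∀ n k, n ≤ k → u k ≤ ⨆ i, u (n + i) := by
    intro n k hnk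
    have h2 : u (n + (k - n)) ≤ ⨆ i, u (n + i) := le_ciSup (hb' n) (k - n)
    rwa [Nat.add_sub_cancel' hnk] at h2
  refine ⟨fun n => ⨆ k, u (n + k), ?_, ?_, h1⟩
  · intro n n' hn
    exact ciSup_le fun k => h1 n _ (hn.trans (Nat.le_add_right _ _))
  · rw [Metric.tendsto_atTop]
    intro ε hε
    obtain ⟨M, hM⟩ := (Metric.tendsto_atTop.1 hu) (ε / 2) (by positivity)
    refine ⟨M, fun n hn => ?_⟩
    have h2 : ∀ k, n ≤ k → |u k| < ε / 2 := by
      intro k hk
      have := hM k (hn.trans hk)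
      rwa [Real.dist_eq, sub_zero] at this
    have h3 : ⨆ k, u (n + k) ≤ ε / 2 := ciSup_le fun k =>
      (le_abs_self _).trans (h2 _ (Nat.le_add_right _ _)).le
    have h4 : -(ε / 2) ≤ ⨆ k, u (n + k) :=
      (neg_le_neg (h2 n le_rfl).le).trans ((neg_abs_le _).trans (h1 n n le_rfl))
    rw [Real.dist_eq, sub_zero, abs_lt]
    constructor <;> linarith

end Clk

open Clk in
theorem clock : S_CLOCK := by
  classical
  intro b ψ K hb hV hψ hK
  obtain ⟨u, hu⟩ : ∃ u : ℕ → ℝ, u = fun k => max (b k ^ 2) (max (2 * K / ψ k) (1 / ((k : ℝ) + 1))) := ⟨_, rfl⟩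
  have hu0 : Tendsto u atTop (𝓝 0) := by
    have h1 : Tendsto (fun k => b k ^ 2) atTop (𝓝 0) := by
      have := hb.pow 2
      simpa using this
    have h2 : Tendsto (fun k => 2 * K / ψ k) atTop (𝓝 0) := hψ.const_div_atTop _
    have h3 : Tendsto (fun k : ℕ => 1 / ((k : ℝ) + 1)) atTop (𝓝 0) := tendsto_one_div_add_atTop_nhds_zero_nat
    have h4 := h1.max (h2.max h3)
    rw [max_self, max_self] at h4
    rw [hu]
    exact h4
  obtain ⟨τ, hτa, hτ0, hτu⟩ := majorant hu0
  have hτpos : ∀ n, 0 < τ n := by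
    intro n
    have h1 := hτu n n le_rfl
    have h2 : 1 / ((n : ℝ) + 1) ≤ u n := by
      rw [hu]
      exact (le_max_right _ _).trans (le_max_right _ _)
    have h3 : (0 : ℝ) < 1 / ((n : ℝ) + 1) := by positivity
    linarith
  have hτb : ∀ n k, n ≤ k → b k ^ 2 ≤ τ n := by
    intro n k hnk
    refine le_trans ?_ (hτu n k hnk)
    rw [hu]
    exact le_max_left _ _
  have hτψ : ∀ n, 2 * K / ψ n ≤ τ n := by
    intro n
    refine le_trans ?_ (hτu n n le_rfl)
    rw [hu]
    exact (le_max_left _ _).trans (le_max_right _ _)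
  have hex : ∀ n, ∃ n', n < n' ∧ τ n ≤ V b n' - V b n := by
    intro n
    obtain ⟨n', h1, h2⟩ := ((hV.eventually_ge_atTop (τ n + V b n)).and (eventually_gt_atTop n)).exists
    exact ⟨n', h2, by linarith⟩
  obtain ⟨nx, hnx⟩ : ∃ nx : ℕ → ℕ, nx = fun n => Nat.find (hex n) := ⟨_, rfl⟩
  have hnx1 : ∀ n, n < nx n := fun n => by
    rw [hnx]
    exact (Nat.find_spec (hex n)).1
  have hnx2 : ∀ n, τ n ≤ V b (nx n) - V b n := fun n => by
    rw [hnx]
    exact (Nat.find_spec (hex n)).2
  have hnx3 : ∀ n, V b (nx n) - V b n ≤ 2 * τ n := by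
    intro n
    obtain ⟨k, hk⟩ : ∃ k, nx n = k + 1 := ⟨nx n - 1, by have := hnx1 n; omega⟩
    have hnk : n ≤ k := by have := hnx1 n; omega
    have h1 : V b k - V b n ≤ τ n := by
      rcases hnk.eq_or_lt with h | h
      · rw [← h, sub_self]
        exact (hτpos n).le
      · have h2 : k < Nat.find (hex n) := by
          have h3 : nx n = Nat.find (hex n) := by rw [hnx]
          omega
        have h3 := Nat.find_min (hex n) h2
        by_contra hcon
        exact h3 ⟨h, (not_le.1 hcon).le⟩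
    rw [hk, V_succ]
    have := hτb n k hnk
    linarith
  obtain ⟨n₁, hn₁, hn₁0⟩ : ∃ n₁, τ n₁ ≤ 1 ∧ 1 ≤ n₁ := by
    have h1 : ∀ᶠ n in atTop, τ n < 1 := hτ0.eventually (gt_mem_nhds (by norm_num))
    obtain ⟨n, h2, h3⟩ := (h1.and (eventually_ge_atTop 1)).exists
    exact ⟨n, h2.le, h3⟩
  obtain ⟨N, hN⟩ : ∃ N : ℕ → ℕ, N = fun j => if j = 0 then 0 else nx^[j - 1] n₁ := ⟨_, rfl⟩
  have hN0 : N 0 = 0 := by rw [hN]; simp
  have hN1 : N 1 = n₁ := by rw [hN]; simp
  have hNs : ∀ j, N (j + 2) = nx (N (j + 1)) := by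
    intro j
    rw [hN]
    have h1 : j + 2 ≠ 0 := by omega
    have h2 : j + 1 ≠ 0 := by omega
    simp only [if_neg h1, if_neg h2]
    have h3 : j + 2 - 1 = j + 1 := by omega
    have h4 : j + 1 - 1 = j := by omega
    rw [h3, h4, Function.iterate_succ_apply']
  have hmono : StrictMono N := by
    refine strictMono_nat_of_lt_succ fun j => ?_
    cases j with
    | zero =>
      rw [hN0, hN1]
      exact hn₁0
    | succ j =>
      rw [hNs]
      exact hnx1 _
  have hNtop : Tendsto N atTop atTop := hmono.tendsto_atTop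
  have hT1 : ∀ j, 1 ≤ j → τ (N j) ≤ 1 := by
    intro j hj
    refine (hτa ?_).trans hn₁
    rw [← hN1]
    exact hmono.monotone hj
  have hblock : ∀ j, 1 ≤ j → τ (N j) ≤ V b (N (j + 1)) - V b (N j) ∧
      V b (N (j + 1)) - V b (N j) ≤ 2 * τ (N j) := by
    intro j hj
    obtain ⟨i, rfl⟩ : ∃ i, j = i + 1 := ⟨j - 1, by omega⟩
    rw [hNs]
    exact ⟨hnx2 _, hnx3 _⟩
  refine ⟨N, fun j => τ (N j), hN0, hmono, fun j => hτpos _, hτ0.comp hNtop, hblock, ?_, ?_⟩
  · rw [← tendsto_add_atTop_iff_nat 1]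
    have h1 : ∀ J, (V b (N (J + 1)) - V b (N 1)) / 2 ≤ ∑ j ∈ Finset.range (J + 1), √(τ (N j)) := by
      intro J
      induction J with
      | zero =>
        simp only [zero_add, sub_self, zero_div]
        positivity
      | succ J ih =>
        rw [Finset.sum_range_succ]
        have h2 := (hblock (J + 1) (by omega)).2
        have h3 := hT1 (J + 1) (by omega)
        have h4 := hτpos (N (J + 1))
        have h5 : τ (N (J + 1)) ≤ √(τ (N (J + 1))) := by
          rw [Real.le_sqrt' h4]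
          nlinarith
        linarith
    refine tendsto_atTop_mono h1 ?_
    have h2 : Tendsto (fun J => V b (N (J + 1))) atTop atTop :=
      hV.comp (hNtop.comp (tendsto_add_atTop_nat 1))
    exact (tendsto_atTop_add_const_right _ (-V b (N 1)) h2).atTop_div_const (by norm_num)
  · have hcnt : ∀ j : ℕ, (j : ℝ) * τ (N (j + 1)) ≤ V b (N (j + 1)) := by
      intro j
      induction j with
      | zero =>
        simp only [Nat.cast_zero, zero_mul]
        exact Finset.sum_nonneg fun _ _ => sq_nonneg _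
      | succ j ih =>
        have h1 := (hblock (j + 1) (by omega)).1
        have h2 : τ (N (j + 1 + 1)) ≤ τ (N (j + 1)) := hτa (hmono.monotone (by omega))
        push_cast
        have h3 : ((j : ℝ) + 1) * τ (N (j + 1 + 1)) ≤ ((j : ℝ) + 1) * τ (N (j + 1)) := by gcongr
        linarith
    have hlim : Tendsto (fun n => ψ n * V b n) atTop atTop := hψ.atTop_mul_atTop₀ hV
    filter_upwards [hlim.eventually_ge_atTop (4 * K), hψ.eventually_gt_atTop 0, hV.eventually_ge_atTop 0] with n h1 h2 h3 j hj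
    cases j with
    | zero =>
      simp only [Nat.cast_zero, zero_add, mul_one]
      linarith
    | succ j =>
      have h4 : (j : ℝ) * τ n ≤ V b n := by
        have h5 := hcnt j
        have h6 : V b (N (j + 1)) ≤ V b n := V_mono b hj
        have h7 : (j : ℝ) * τ n ≤ j * τ (N (j + 1)) := by
          gcongr
          exact hτa hj
        linarith
      have h5 := hτψ n
      have h6 : (j : ℝ) * (2 * K / ψ n) ≤ V b n := by
        refine le_trans ?_ h4
        gcongr
      have h7 : (j : ℝ) * (2 * K) ≤ V b n * ψ n := by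
        rw [← mul_div_assoc, div_le_iff₀ h2] at h6
        exact h6
      push_cast
      nlinarith

end Pool.Agent.Q299.IR
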