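import Mathlib

set_option autoImplicit false

/-!
# Further algebraically independent points
-/

namespace Pool.Agent.Q299.IR

/-- new elements outside a finite part of an infinite set -/
theorem exists_new {κ : Type} [Finite κ] {t s : Set ℂ} (ht : t.Infinite) (hs : s.Finite) :
    ∃ g : κ → ℂ, Function.Injective g ∧ ∀ x, g x ∈ t ∧ g x ∉ s := by
  have hdiff := (ht.sdiff hs).to_subtype
  obtain ⟨g⟩ : Nonempty (κ ↪ ↥(t \ s)) :=
    (Cardinal.le_def _ _).1 ((Cardinal.lt_aleph0_of_finite _).le.trans (Cardinal.aleph0_le_mk _))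
  exact ⟨fun x => (g x : ℂ), fun x y h => g.injective (Subtype.ext h), fun x => (g x).2⟩

theorem exists_basis {ι : Type} {x : ι → ℂ} (hx : AlgebraicIndependent ℚ x) :
    ∃ t : Set ℂ, Set.range x ⊆ t ∧ t.Infinite ∧ AlgebraicIndependent ℚ ((↑) : t → ℂ) := by
  obtain ⟨t, hst, ht⟩ := exists_isTranscendenceBasis_superset
    (R := ℚ) (s := Set.range x) hx.coe_range
  refine ⟨t, hst, fun hfin => ?_, ht.1⟩
  have hcard := IsAlgClosed.cardinal_eq_cardinal_transcendence_basis_of_aleph0_lt _ ht
    (by simp) (by rw [Cardinal.mk_complex]; exact Cardinal.aleph0_lt_continuum)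
  rw [Cardinal.lift_id, Cardinal.lift_id] at hcard
  have h1 : Cardinal.mk t < Cardinal.aleph0 := by
    have := hfin.to_subtype
    exact Cardinal.lt_aleph0_of_finite t
  have h2 : Cardinal.mk t = Cardinal.continuum := by
    rw [← Cardinal.mk_complex]
    exact hcard.symm
  rw [h2] at h1
  exact absurd h1 (not_lt.2 Cardinal.aleph0_le_continuum)

theorem append_indep {n k : ℕ} {P : Fin n → Fin 2 → ℂ} {Q : Fin k → Fin 2 → ℂ} {t : Set ℂ}
    (ht : AlgebraicIndependent ℚ ((↑) : t → ℂ))
    (hP : Function.Injective (fun ij : Fin n × Fin 2 => P ij.1 ij.2))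
    (hQ : Function.Injective (fun ij : Fin k × Fin 2 => Q ij.1 ij.2))
    (hPt : ∀ i b, P i b ∈ t) (hQt : ∀ j b, Q j b ∈ t) (hPQ : ∀ i b j b', P i b ≠ Q j b') :
    AlgebraicIndependent ℚ (fun ij : Fin (n + k) × Fin 2 => Fin.append P Q ij.1 ij.2) := by
  have hmem : ∀ i b, Fin.append P Q i b ∈ t := by
    intro i b
    induction i using Fin.addCases with
    | left i => rw [Fin.append_left]; exact hPt i b
    | right j => rw [Fin.append_right]; exact hQt j b
  have hinj : ∀ i b i' b', Fin.append P Q i b = Fin.append P Q i' b' → i = i' ∧ b = b' := by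
    intro i b i' b' h
    induction i using Fin.addCases with
    | left i =>
      induction i' using Fin.addCases with
      | left i' =>
        rw [Fin.append_left, Fin.append_left] at h
        have h2 := hP (a₁ := (i, b)) (a₂ := (i', b')) h
        rw [Prod.mk.injEq] at h2
        exact ⟨by rw [h2.1], h2.2⟩
      | right j' =>
        rw [Fin.append_left, Fin.append_right] at h
        exact absurd h (hPQ _ _ _ _)
    | right j =>
      induction i' using Fin.addCases with
      | left i' =>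
        rw [Fin.append_left, Fin.append_right] at h
        exact absurd h.symm (hPQ _ _ _ _)
      | right j' =>
        rw [Fin.append_right, Fin.append_right] at h
        have h2 := hQ (a₁ := (j, b)) (a₂ := (j', b')) h
        rw [Prod.mk.injEq] at h2
        exact ⟨by rw [h2.1], h2.2⟩
  have h1 := ht.comp (fun ij : Fin (n + k) × Fin 2 =>
    (⟨Fin.append P Q ij.1 ij.2, hmem ij.1 ij.2⟩ : t)) (by
      rintro ⟨i, b⟩ ⟨i', b'⟩ h
      obtain ⟨h2, h3⟩ := hinj i b i' b' (congrArg Subtype.val h)
      rw [h2, h3])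
  exact h1

theorem exists_Q {n : ℕ} (k : ℕ) {P : Fin n → Fin 2 → ℂ}
    (hP : AlgebraicIndependent ℚ (fun ij : Fin n × Fin 2 => P ij.1 ij.2)) :
    ∃ Q : Fin k → Fin 2 → ℂ,
      AlgebraicIndependent ℚ (fun ij : Fin (n + k) × Fin 2 => Fin.append P Q ij.1 ij.2) := by
  obtain ⟨t, hst, htinf, ht⟩ := exists_basis hP
  obtain ⟨g, hg, hgt⟩ := exists_new (κ := Fin k × Fin 2) htinf
    (Set.finite_range (fun ij : Fin n × Fin 2 => P ij.1 ij.2))
  refine ⟨fun j b => g (j, b), append_indep ht hP.injective hg (fun i b => hst ⟨(i, b), rfl⟩)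
    (fun j b => (hgt (j, b)).1) fun i b j b' h => ?_⟩
  exact (hgt (j, b')).2 ⟨(i, b), h⟩

end Pool.Agent.Q299.IR
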