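import Pool.Agent.Q255.IR.Stm

/-! Project IR (helper255), job PAT (helper299): a positive proportion of good sign patterns. -/

set_option autoImplicit false

namespace Pool.Agent.Q299.IR

open Filter Topology MeasureTheory Pool.Agent.Q255.IC Pool.Agent.Q255.IR

namespace Pt

/-- the signed sum -/
noncomputable def sm {n : ℕ} (b : Fin n → ℝ) (s : Fin n → Bool) : ℝ := ∑ i, (if s i then (1 : ℝ) else -1) * b i

/-- the partial signed sums -/
noncomputable def ps {n : ℕ} (b : Fin n → ℝ) (s : Fin n → Bool) (m : ℕ) : ℝ :=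
  ∑ i : Fin n, if (i : ℕ) < m then (if s i then (1 : ℝ) else -1) * b i else 0

theorem sum_cons {n : ℕ} (F : (Fin (n + 1) → Bool) → ℝ) :
    ∑ s, F s = ∑ t : Fin n → Bool, (F (Fin.cons true t) + F (Fin.cons false t)) := by
  rw [← (Fin.consEquiv (fun _ : Fin (n + 1) => Bool)).sum_comp, Fintype.sum_prod_type, Fintype.sum_bool,
    Finset.sum_add_distrib]
  rfl

theorem sm_cons {n : ℕ} (b : Fin (n + 1) → ℝ) (e : Bool) (t : Fin n → Bool) :
    sm b (Fin.cons e t : Fin (n + 1) → Bool) = (if e then (1 : ℝ) else -1) * b 0 + sm (fun i => b i.succ) t := by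
  unfold sm
  rw [Fin.sum_univ_succ]
  simp

theorem ps_zero {n : ℕ} (b : Fin n → ℝ) (s : Fin n → Bool) : ps b s 0 = 0 := by
  unfold ps
  simp

theorem ps_cons {n : ℕ} (b : Fin (n + 1) → ℝ) (e : Bool) (t : Fin n → Bool) (m : ℕ) :
    ps b (Fin.cons e t : Fin (n + 1) → Bool) (m + 1) =
      (if e then (1 : ℝ) else -1) * b 0 + ps (fun i => b i.succ) t m := by
  unfold ps
  rw [Fin.sum_univ_succ]
  simp

/-- the variance -/
noncomputable def vr {n : ℕ} (b : Fin n → ℝ) : ℝ := ∑ i, b i ^ 2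

theorem vr_cons {n : ℕ} (b : Fin (n + 1) → ℝ) : vr b = b 0 ^ 2 + vr (fun i => b i.succ) := by
  unfold vr
  rw [Fin.sum_univ_succ]

theorem vr_nonneg {n : ℕ} (b : Fin n → ℝ) : 0 ≤ vr b := Finset.sum_nonneg fun _ _ => sq_nonneg _

theorem second {n : ℕ} (b : Fin n → ℝ) (x : ℝ) : ∑ s, (x + sm b s) ^ 2 = 2 ^ n * (x ^ 2 + vr b) := by
  induction n generalizing x with
  | zero => simp [sm, vr]
  | succ n ih =>
    rw [sum_cons]
    have h1 : ∀ t : Fin n → Bool, (x + sm b (Fin.cons true t : Fin (n + 1) → Bool)) ^ 2 + (x + sm b (Fin.cons false t : Fin (n + 1) → Bool)) ^ 2 =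
        ((x + b 0) + sm (fun i => b i.succ) t) ^ 2 + ((x - b 0) + sm (fun i => b i.succ) t) ^ 2 := by
      intro t
      rw [sm_cons, sm_cons]
      simp only [if_true, Bool.false_eq_true, if_false]
      ring
    rw [Finset.sum_congr rfl fun t _ => h1 t, Finset.sum_add_distrib, ih, ih, vr_cons, pow_succ]
    ring

theorem fourth {n : ℕ} (b : Fin n → ℝ) (x : ℝ) :
    ∑ s, (x + sm b s) ^ 4 ≤ 2 ^ n * (x ^ 4 + 6 * x ^ 2 * vr b + 3 * vr b ^ 2) := by
  induction n generalizing x with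
  | zero => simp [sm, vr]
  | succ n ih =>
    rw [sum_cons]
    have h1 : ∀ t : Fin n → Bool, (x + sm b (Fin.cons true t : Fin (n + 1) → Bool)) ^ 4 + (x + sm b (Fin.cons false t : Fin (n + 1) → Bool)) ^ 4 =
        ((x + b 0) + sm (fun i => b i.succ) t) ^ 4 + ((x - b 0) + sm (fun i => b i.succ) t) ^ 4 := by
      intro t
      rw [sm_cons, sm_cons]
      simp only [if_true, Bool.false_eq_true, if_false]
      ring
    rw [Finset.sum_congr rfl fun t _ => h1 t, Finset.sum_add_distrib]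
    have h2 := add_le_add (ih (fun i => b i.succ) (x + b 0)) (ih (fun i => b i.succ) (x - b 0))
    refine h2.trans ?_
    rw [vr_cons, pow_succ (2 : ℝ) n]
    have h3 : (0 : ℝ) < 2 ^ n := by positivity
    have h4 : 0 ≤ b 0 ^ 4 := by positivity
    have h5 : 2 ^ n * ((x + b 0) ^ 4 + 6 * (x + b 0) ^ 2 * vr (fun i => b i.succ) + 3 * vr (fun i => b i.succ) ^ 2) +
        2 ^ n * ((x - b 0) ^ 4 + 6 * (x - b 0) ^ 2 * vr (fun i => b i.succ) + 3 * vr (fun i => b i.succ) ^ 2) =
        2 ^ n * 2 * (x ^ 4 + 6 * x ^ 2 * (b 0 ^ 2 + vr (fun i => b i.succ)) + 3 * (b 0 ^ 2 + vr (fun i => b i.succ)) ^ 2) -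
          2 ^ n * 4 * b 0 ^ 4 := by ring
    rw [h5]
    have h6 : 0 ≤ 2 ^ n * 4 * b 0 ^ 4 := by positivity
    linarith

open Classical in
theorem maximal {n : ℕ} (b : Fin n → ℝ) (a : ℝ) (ha : 0 < a) (x : ℝ) :
    ∑ s : Fin n → Bool, (if ∃ m, a < |x + ps b s m| then (1 : ℝ) else 0) ≤ 2 ^ n * (x ^ 2 + vr b) / a ^ 2 := by
  induction n generalizing x with
  | zero =>
    have h1 : ∀ s : Fin 0 → Bool, (if ∃ m, a < |x + ps b s m| then (1 : ℝ) else 0) ≤ x ^ 2 / a ^ 2 := by
      intro s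
      split_ifs with h
      · obtain ⟨m, hm⟩ := h
        have h2 : ps b s m = 0 := by simp [ps]
        rw [h2, add_zero] at hm
        rw [le_div_iff₀ (by positivity), one_mul, ← sq_abs x]
        gcongr
      · positivity
    refine (Finset.sum_le_sum fun s _ => h1 s).trans ?_
    simp [vr]
  | succ n ih =>
    by_cases hx : a < |x|
    · have h1 : ∀ s : Fin (n + 1) → Bool, (if ∃ m, a < |x + ps b s m| then (1 : ℝ) else 0) ≤ 1 := by
        intro s
        split_ifs <;> norm_num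
      refine (Finset.sum_le_sum fun s _ => h1 s).trans ?_
      have h2 : (∑ _s : Fin (n + 1) → Bool, (1 : ℝ)) = 2 ^ (n + 1) := by simp
      rw [h2, le_div_iff₀ (by positivity)]
      have h3 : a ^ 2 ≤ x ^ 2 := by
        rw [← sq_abs x]
        gcongr
      have h4 := vr_nonneg b
      gcongr
      linarith
    · rw [sum_cons]
      have h1 : ∀ (e : Bool) (t : Fin n → Bool),
          (if ∃ m, a < |x + ps b (Fin.cons e t : Fin (n + 1) → Bool) m| then (1 : ℝ) else 0) =
            (if ∃ m, a < |(x + (if e then (1 : ℝ) else -1) * b 0) + ps (fun i => b i.succ) t m| then (1 : ℝ) else 0) := by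
        intro e t
        refine if_congr ⟨?_, ?_⟩ rfl rfl
        · rintro ⟨m, hm⟩
          cases m with
          | zero =>
            rw [ps_zero, add_zero] at hm
            exact absurd hm hx
          | succ m =>
            refine ⟨m, ?_⟩
            rw [ps_cons, ← add_assoc] at hm
            exact hm
        · rintro ⟨m, hm⟩
          refine ⟨m + 1, ?_⟩
          rw [ps_cons, ← add_assoc]
          exact hm
      simp only [h1]
      rw [Finset.sum_add_distrib]
      have h2 := add_le_add (ih (fun i => b i.succ) (x + (if true then (1 : ℝ) else -1) * b 0))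
        (ih (fun i => b i.succ) (x + (if false then (1 : ℝ) else -1) * b 0))
      refine h2.trans_eq ?_
      rw [vr_cons, pow_succ]
      simp only [if_true, Bool.false_eq_true, if_false]
      field_simp
      ring

theorem sm_not {n : ℕ} (b : Fin n → ℝ) (s : Fin n → Bool) : sm b (fun i => !s i) = -sm b s := by
  unfold sm
  rw [← Finset.sum_neg_distrib]
  refine Finset.sum_congr rfl fun i _ => ?_
  by_cases h : s i = true
  · simp [h]
  · rw [Bool.not_eq_true] at h
    simp [h]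

open Classical in
/-- Paley-Zygmund -/
theorem pz {n : ℕ} (b : Fin n → ℝ) :
    3 / 16 * 2 ^ n ≤ ((Finset.univ.filter fun s : Fin n → Bool => √(vr b) / 2 ≤ |sm b s|).card : ℝ) := by
  rcases (vr_nonneg b).eq_or_lt with h0 | h0
  · have h1 : (Finset.univ.filter fun s : Fin n → Bool => √(vr b) / 2 ≤ |sm b s|) = Finset.univ := by
      refine Finset.filter_true_of_mem fun s _ => ?_
      rw [← h0]
      simp
    rw [h1]
    have h2 : ((Finset.univ : Finset (Fin n → Bool)).card : ℝ) = 2 ^ n := by simp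
    rw [h2]
    have : (0 : ℝ) < 2 ^ n := by positivity
    linarith
  · obtain ⟨A, hA⟩ : ∃ A : Finset (Fin n → Bool), A = Finset.univ.filter fun s : Fin n → Bool => √(vr b) / 2 ≤ |sm b s| := ⟨_, rfl⟩
    rw [← hA]
    have h2 := second b 0
    have h4 := fourth b 0
    simp only [zero_add] at h2 h4
    have hz2 : (0 : ℝ) ^ 2 = 0 := by norm_num
    have hz4 : (0 : ℝ) ^ 4 = 0 := by norm_num
    rw [hz2, zero_add] at h2
    rw [hz2, hz4] at h4
    simp only [zero_add, mul_zero, zero_mul] at h4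
    have h5 : ∑ s, sm b s ^ 2 ≤ ∑ s ∈ A, sm b s ^ 2 + 2 ^ n * (vr b / 4) := by
      rw [← Finset.sum_add_sum_compl A]
      have h6 : ∑ s ∈ Aᶜ, sm b s ^ 2 ≤ ∑ _s ∈ Aᶜ, vr b / 4 := by
        refine Finset.sum_le_sum fun s hs => ?_
        rw [Finset.mem_compl, hA, Finset.mem_filter] at hs
        have h7 : |sm b s| < √(vr b) / 2 := by
          by_contra hcon
          exact hs ⟨Finset.mem_univ _, not_lt.1 hcon⟩
        have h8 : |sm b s| ^ 2 ≤ (√(vr b) / 2) ^ 2 := by gcongr
        rw [sq_abs, div_pow, Real.sq_sqrt h0.le] at h8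
        linarith
      have h9 : ∑ _s ∈ Aᶜ, vr b / 4 ≤ 2 ^ n * (vr b / 4) := by
        rw [Finset.sum_const, nsmul_eq_mul]
        have h10 : ((Aᶜ).card : ℝ) ≤ 2 ^ n := by
          have : (Aᶜ).card ≤ 2 ^ n := (Finset.card_le_univ _).trans (by simp)
          exact_mod_cast this
        gcongr
      linarith
    have h6 : (∑ s ∈ A, sm b s ^ 2) ^ 2 ≤ A.card * ∑ s ∈ A, (sm b s ^ 2) ^ 2 := sq_sum_le_card_mul_sum_sq
    have h7 : ∑ s ∈ A, (sm b s ^ 2) ^ 2 ≤ ∑ s, sm b s ^ 4 := by
      have : ∀ s, (sm b s ^ 2) ^ 2 = sm b s ^ 4 := fun s => by ring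
      simp only [this]
      exact Finset.sum_le_sum_of_subset_of_nonneg (Finset.subset_univ _) fun _ _ _ => by positivity
    have h8 : 3 / 4 * (2 ^ n * vr b) ≤ ∑ s ∈ A, sm b s ^ 2 := by linarith
    have hp : (0 : ℝ) < 2 ^ n := by positivity
    have h9 : (3 / 4 * (2 ^ n * vr b)) ^ 2 ≤ (∑ s ∈ A, sm b s ^ 2) ^ 2 := by
      have : 0 ≤ 3 / 4 * (2 ^ n * vr b) := by positivity
      gcongr
    have h10 : (A.card : ℝ) * ∑ s ∈ A, (sm b s ^ 2) ^ 2 ≤ A.card * (2 ^ n * (3 * vr b ^ 2)) := by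
      gcongr
      exact h7.trans h4
    have h11 : (3 / 4 * (2 ^ n * vr b)) ^ 2 ≤ A.card * (2 ^ n * (3 * vr b ^ 2)) := h9.trans (h6.trans h10)
    have h12 : 0 < 2 ^ n * (3 * vr b ^ 2) := by positivity
    have h13 : 3 / 16 * 2 ^ n * (2 ^ n * (3 * vr b ^ 2)) ≤ A.card * (2 ^ n * (3 * vr b ^ 2)) := by
      refine le_trans (le_of_eq ?_) h11
      ring
    exact le_of_mul_le_mul_right h13 h12

open Classical in
theorem half {n : ℕ} (b : Fin n → ℝ) :
    3 / 32 * 2 ^ n ≤ ((Finset.univ.filter fun s : Fin n → Bool => √(vr b) / 2 ≤ sm b s).card : ℝ) := by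
  have h1 := pz b
  have h2 : (Finset.univ.filter fun s : Fin n → Bool => √(vr b) / 2 ≤ |sm b s|) ⊆
      (Finset.univ.filter fun s : Fin n → Bool => √(vr b) / 2 ≤ sm b s) ∪
        (Finset.univ.filter fun s : Fin n → Bool => √(vr b) / 2 ≤ -sm b s) := by
    intro s hs
    rw [Finset.mem_filter] at hs
    rw [Finset.mem_union, Finset.mem_filter, Finset.mem_filter]
    rcases le_or_gt 0 (sm b s) with h | h
    · left
      rw [abs_of_nonneg h] at hs
      exact hs
    · right
      rw [abs_of_neg h] at hs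
      exact hs
  have h3 : (Finset.univ.filter fun s : Fin n → Bool => √(vr b) / 2 ≤ -sm b s).card =
      (Finset.univ.filter fun s : Fin n → Bool => √(vr b) / 2 ≤ sm b s).card := by
    refine Finset.card_bij' (fun s _ => fun i => !s i) (fun s _ => fun i => !s i) ?_ ?_ ?_ ?_
    · intro s hs
      rw [Finset.mem_filter] at hs ⊢
      rw [sm_not]
      exact ⟨Finset.mem_univ _, hs.2⟩
    · intro s hs
      rw [Finset.mem_filter] at hs ⊢
      rw [sm_not, neg_neg]
      exact ⟨Finset.mem_univ _, hs.2⟩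
    · intro s _
      funext i
      simp
    · intro s _
      funext i
      simp
  have h4 := (Finset.card_le_card h2).trans (Finset.card_union_le _ _)
  rw [h3] at h4
  have h5 : ((Finset.univ.filter fun s : Fin n → Bool => √(vr b) / 2 ≤ |sm b s|).card : ℝ) ≤
      ((Finset.univ.filter fun s : Fin n → Bool => √(vr b) / 2 ≤ sm b s).card : ℝ) +
      ((Finset.univ.filter fun s : Fin n → Bool => √(vr b) / 2 ≤ sm b s).card : ℝ) := by
    exact_mod_cast h4
  linarith

end Pt

open Pt in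
theorem pat : S_PAT := by
  classical
  refine ⟨1 / 16, by norm_num, by norm_num, fun n b => ?_⟩
  have hp : (0 : ℝ) < 2 ^ n := by positivity
  rcases (vr_nonneg b).eq_or_lt with h0 | h0
  · -- all `b` vanish
    have hb : ∀ i, b i = 0 := by
      intro i
      have h1 : ∀ i ∈ Finset.univ, b i ^ 2 = 0 := (Finset.sum_eq_zero_iff_of_nonneg fun i _ => sq_nonneg (b i)).1 h0.symm
      exact pow_eq_zero_iff (by norm_num) |>.1 (h1 i (Finset.mem_univ i))
    refine ⟨Finset.univ, ?_, fun s _ => ⟨?_, fun m => ?_⟩⟩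
    · have h2 : ((Finset.univ : Finset (Fin n → Bool)).card : ℝ) = 2 ^ n := by simp
      rw [h2]
      linarith
    · simp [hb]
    · simp [hb]
  · obtain ⟨G1, hG1⟩ : ∃ G1 : Finset (Fin n → Bool), G1 = Finset.univ.filter fun s : Fin n → Bool => √(vr b) / 2 ≤ sm b s := ⟨_, rfl⟩
    obtain ⟨G2, hG2⟩ : ∃ G2 : Finset (Fin n → Bool), G2 = Finset.univ.filter fun s : Fin n → Bool => ∃ m, 6 * √(vr b) < |0 + ps b s m| := ⟨_, rfl⟩
    have h1 : 3 / 32 * 2 ^ n ≤ (G1.card : ℝ) := hG1 ▸ half b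
    have h2 : (G2.card : ℝ) ≤ 2 ^ n / 36 := by
      have h3 := maximal b (6 * √(vr b)) (by positivity) 0
      have h4 : ∑ s : Fin n → Bool, (if ∃ m, 6 * √(vr b) < |0 + ps b s m| then (1 : ℝ) else 0) = G2.card := by
        rw [hG2, Finset.sum_boole]
      rw [h4] at h3
      refine h3.trans (le_of_eq ?_)
      rw [mul_pow, Real.sq_sqrt h0.le]
      field_simp
      ring
    refine ⟨G1 \ G2, ?_, fun s hs => ?_⟩
    · have h3 : G1.card ≤ (G1 \ G2).card + G2.card := by
        have := Finset.le_card_sdiff G2 G1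
        omega
      have h4 : (G1.card : ℝ) ≤ ((G1 \ G2).card : ℝ) + G2.card := by exact_mod_cast h3
      linarith
    · rw [Finset.mem_sdiff, hG1, hG2, Finset.mem_filter, Finset.mem_filter] at hs
      refine ⟨hs.1.2, fun m => ?_⟩
      by_contra hcon
      refine hs.2 ⟨Finset.mem_univ _, m, ?_⟩
      rw [zero_add]
      exact not_le.1 hcon

end Pool.Agent.Q299.IR
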